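import Pool.Agent.R340.P3.Match

set_option autoImplicit false

/-!
The arithmetic theorem for three points in rank three and a prime number `N`, one of the sums of
three exponents being an integer.
-/

open Finset

namespace Pool.Agent.R340.P3

open Pool.Agent.R340.PC (sw sw_congr)

variable {N : ℕ} {a1 a2 b1 b2 c1 c2 : ℤ}

lemma same_congr {a1' a2' b1' b2' c1' c2' : ℤ}
    (h : Same N (six a1' a2' b1' b2' c1' c2')) (h1 : (N : ℤ) ∣ a1 - a1') (h2 : (N : ℤ) ∣ a2 - a2')
    (h3 : (N : ℤ) ∣ b1 - b1') (h4 : (N : ℤ) ∣ b2 - b2') (h5 : (N : ℤ) ∣ c1 - c1')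
    (h6 : (N : ℤ) ∣ c2 - c2') : Same N (six a1 a2 b1 b2 c1 c2) := by
  refine h.perm (Equiv.refl _) (fun _ => Equiv.refl _) 0 fun i l => ?_
  have key : ∀ {x y : ℤ}, (N : ℤ) ∣ x - y → (N : ℤ) ∣ y - x := fun {x y} h => by
    have := (dvd_neg).2 h
    rwa [neg_sub] at this
  fin_cases i <;> fin_cases l <;>
    simp [six, key h1, key h2, key h3, key h4, key h5, key h6]

lemma same_ab (h : Same N (six b1 b2 a1 a2 c1 c2)) : Same N (six a1 a2 b1 b2 c1 c2) := by
  refine h.perm (Equiv.swap 0 1) (fun _ => Equiv.refl _) 0 fun i l => ?_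
  fin_cases i <;> fin_cases l <;> simp [six, Equiv.swap_apply_def]

lemma same_bc (h : Same N (six a1 a2 c1 c2 b1 b2)) : Same N (six a1 a2 b1 b2 c1 c2) := by
  refine h.perm (Equiv.swap 1 2) (fun _ => Equiv.refl _) 0 fun i l => ?_
  fin_cases i <;> fin_cases l <;> simp [six, Equiv.swap_apply_def]

lemma same_a (h : Same N (six a2 a1 b1 b2 c1 c2)) : Same N (six a1 a2 b1 b2 c1 c2) := by
  refine h.perm (Equiv.refl _) (fun i => if i = 0 then Equiv.swap 1 2 else Equiv.refl _) 0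
    fun i l => ?_
  fin_cases i <;> fin_cases l <;> simp [six, Equiv.swap_apply_def]

lemma same_b (h : Same N (six a1 a2 b2 b1 c1 c2)) : Same N (six a1 a2 b1 b2 c1 c2) :=
  same_ab (same_a (same_ab h))

lemma same_c (h : Same N (six a1 a2 b1 b2 c2 c1)) : Same N (six a1 a2 b1 b2 c1 c2) :=
  same_bc (same_b (same_bc h))

lemma SG.swap_b (h : SG N (six a1 a2 b1 b2 c1 c2)) : SG N (six a1 a2 b2 b1 c1 c2) :=
  h.swap_ab.swap_a.swap_ab

lemma SG.swap_c (h : SG N (six a1 a2 b1 b2 c1 c2)) : SG N (six a1 a2 b1 b2 c2 c1) :=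
  h.swap_bc.swap_b.swap_bc

/-- Three translates or an arithmetic progression. -/
theorem typeIII (hp : N.Prime) (hodd : Odd N) {p q r : ℤ}
    (h : SG N (six p q (-p) r (-q) (-r))) : Same N (six p q (-p) r (-q) (-r)) := by
  have hN := hp.pos
  obtain ⟨-, hp0, hq0, -, hr0, -, -⟩ := h.sum_eq hN 1 isCoprime_one_left
  simp only [one_mul] at hp0 hq0 hr0
  have h' : SG N (six (-p) (q - p) p (r + p) (-q) (-r)) := by
    have h1 := h.perm (Equiv.refl _) (fun i => if i = 2 then Equiv.refl _ else Equiv.swap 0 1)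
    have h2 := h1.rebase ![p, -p, 0] (by simp [Fin.sum_univ_three])
    refine h2.congr fun i l => ?_
    fin_cases i <;> fin_cases l <;> simp [six, Equiv.swap_apply_def]
  obtain ⟨-, -, hqp, -, hrp, hq', hr'⟩ := h'.sum_eq hN 1 isCoprime_one_left
  simp only [one_mul] at hqp hrp hq' hr'
  have hpair := pair4 hp hodd hqp hrp hq' hr' (by
    intro u hu
    have h1 := h'.saw hN u hu
    have h2 := sw_neg_add hN (u * -p) (u * p) (by simp)
    linarith)
  rcases hpair with ⟨h1, -⟩ | ⟨h1, -⟩ | ⟨h1, -⟩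
  · -- `r = -q`
    have hqr : (N : ℤ) ∣ r + q := by
      have : r + q = q - p + (r + p) := by ring
      rwa [this]
    have hrq : (N : ℤ) ∣ -r - q := by
      have : -r - q = -(r + q) := by ring
      rw [this]
      exact (dvd_neg).2 hqr
    have h2 := h.swap_bc.swap_ab.sixcongr (a1' := -q) (a2' := -(-q)) (b1' := p) (b2' := q)
      (c1' := -p) (c2' := -q) (by simp) (by simpa using hrq) (by simp) (by simp) (by simp)
      (by simpa using hqr)
    have h3 := typeII hp hodd h2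
    refine same_bc (same_ab (same_congr h3 (by simp) (by simpa using hrq) (by simp) (by simp)
      (by simp) (by simpa using hqr)))
  · exfalso
    apply hp0
    have h2 : p = -(q - p + -q) := by ring
    rw [h2]
    exact (dvd_neg).2 h1
  · -- `q = p + r`
    have hqp' : ¬ (N : ℤ) ∣ p - q := by
      intro h
      apply hqp
      have := (dvd_neg).2 h
      rwa [neg_sub] at this
    refine ⟨![0, p, q], ?_, ?_⟩
    · intro l l' hl
      fin_cases l <;> fin_cases l' <;> simp_all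
    · obtain ⟨k, hk⟩ := h1
      have mk : ∃ σ : Equiv.Perm (Fin 3), σ 0 = 1 ∧ σ 1 = 2 ∧ σ 2 = 0 := by decide
      obtain ⟨σ, s0, s1, s2⟩ := mk
      intro i
      fin_cases i
      · refine ⟨Equiv.refl _, 0, fun l => ?_⟩
        fin_cases l <;> simp [six]
      · refine ⟨Equiv.swap 0 1, -p, fun l => ?_⟩
        fin_cases l
        · simp [six, Equiv.swap_apply_def]
        · simp [six, Equiv.swap_apply_def]
        · refine ⟨-k, ?_⟩
          simp [six, Equiv.swap_apply_def]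
          linear_combination -hk
      · refine ⟨σ, -q, fun l => ?_⟩
        fin_cases l
        · simp [six, s0]
        · refine ⟨k, ?_⟩
          simp [six, s1]
          linear_combination hk
        · simp [six, s2]

lemma dvd_neg_sub {x y : ℤ} (h : (N : ℤ) ∣ x + y) : (N : ℤ) ∣ y - (-x) := by
  have : y - -x = x + y := by ring
  rwa [this]

lemma caseA (hp : N.Prime) (hodd : Odd N) (h : SG N (six a1 a2 b1 b2 c1 c2))
    (hd : (N : ℤ) ∣ a1 + a2) : Same N (six a1 a2 b1 b2 c1 c2) := by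
  have hN := hp.pos
  obtain ⟨-, -, -, n3, n4, n5, n6⟩ := h.sum_eq hN 1 isCoprime_one_left
  simp only [one_mul] at n3 n4 n5 n6
  have z : ∀ x : ℤ, (N : ℤ) ∣ x - x := fun x => by simp
  rcases pair4 hp hodd n3 n4 n5 n6 (by
    intro u hu
    have h1 := h.saw hN u hu
    have h2 := sw_neg_add hN (u * a1) (u * a2) (by rw [← mul_add]; exact hd.mul_left u)
    linarith) with ⟨g1, g2⟩ | ⟨g1, g2⟩ | ⟨g1, g2⟩
  · exact same_congr (typeI hp hodd (h.sixcongr (z a1) (dvd_neg_sub hd) (z b1) (dvd_neg_sub g1)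
      (z c1) (dvd_neg_sub g2))) (z _) (dvd_neg_sub hd) (z _) (dvd_neg_sub g1) (z _) (dvd_neg_sub g2)
  · exact same_congr (typeII hp hodd (h.sixcongr (z a1) (dvd_neg_sub hd) (z b1) (z b2)
      (dvd_neg_sub g1) (dvd_neg_sub g2))) (z _) (dvd_neg_sub hd) (z _) (z _) (dvd_neg_sub g1)
      (dvd_neg_sub g2)
  · exact same_c (same_congr (typeII hp hodd (h.swap_c.sixcongr (z a1) (dvd_neg_sub hd) (z b1)
      (z b2) (dvd_neg_sub g1) (dvd_neg_sub g2))) (z _) (dvd_neg_sub hd) (z _) (z _)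
      (dvd_neg_sub g1) (dvd_neg_sub g2))

lemma caseB (hp : N.Prime) (hodd : Odd N) (h : SG N (six a1 a2 b1 b2 c1 c2))
    (hd : (N : ℤ) ∣ a1 + b1) : Same N (six a1 a2 b1 b2 c1 c2) := by
  have hN := hp.pos
  obtain ⟨-, -, n2, -, n4, n5, n6⟩ := h.sum_eq hN 1 isCoprime_one_left
  simp only [one_mul] at n2 n4 n5 n6
  have z : ∀ x : ℤ, (N : ℤ) ∣ x - x := fun x => by simp
  rcases pair4 hp hodd n2 n4 n5 n6 (by
    intro u hu
    have h1 := h.saw hN u hu
    have h2 := sw_neg_add hN (u * a1) (u * b1) (by rw [← mul_add]; exact hd.mul_left u)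
    linarith) with ⟨g1, g2⟩ | ⟨g1, g2⟩ | ⟨g1, g2⟩
  · -- the symmetric set is the third one
    exact same_bc (same_ab (same_congr (typeII hp hodd (h.swap_bc.swap_ab.sixcongr (z c1)
      (dvd_neg_sub g2) (z a1) (z a2) (dvd_neg_sub hd) (dvd_neg_sub g1))) (z _) (dvd_neg_sub g2)
      (z _) (z _) (dvd_neg_sub hd) (dvd_neg_sub g1)))
  · exact same_congr (typeIII hp hodd (h.sixcongr (z a1) (z a2) (dvd_neg_sub hd) (z b2)
      (dvd_neg_sub g1) (dvd_neg_sub g2))) (z _) (z _) (dvd_neg_sub hd) (z _) (dvd_neg_sub g1)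
      (dvd_neg_sub g2)
  · exact same_c (same_congr (typeIII hp hodd (h.swap_c.sixcongr (z a1) (z a2) (dvd_neg_sub hd)
      (z b2) (dvd_neg_sub g1) (dvd_neg_sub g2))) (z _) (z _) (dvd_neg_sub hd) (z _)
      (dvd_neg_sub g1) (dvd_neg_sub g2))

theorem main_six (hp : N.Prime) (h : SG N (six a1 a2 b1 b2 c1 c2)) :
    Same N (six a1 a2 b1 b2 c1 c2) := by
  have hN := hp.pos
  obtain ⟨-, n1, n2, n3, n4, n5, n6⟩ := h.sum_eq hN 1 isCoprime_one_left
  simp only [one_mul] at n1 n2 n3 n4 n5 n6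
  have hodd : Odd N := by
    rcases hp.eq_two_or_odd' with h2 | h2
    · exfalso
      have h1 := h.C1 hN 1 isCoprime_one_left
      subst h2
      simp only [one_mul] at h1
      have m1 : a1 % 2 = 1 := by omega
      have m2 : a2 % 2 = 1 := by omega
      have m3 : b1 % 2 = 1 := by omega
      have m4 : b2 % 2 = 1 := by omega
      simp only [Nat.cast_ofNat, m1, m2, m3, m4, min_self] at h1
      norm_num at h1
    · exact h2
  rcases pair6 hp hodd n1 n2 n3 n4 n5 n6 (h.saw hN) with g | g | g | g | g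
  · exact caseA hp hodd h g
  · exact caseB hp hodd h g
  · exact same_b (caseB hp hodd h.swap_b g)
  · exact same_bc (caseB hp hodd h.swap_bc g)
  · exact same_bc (same_b (caseB hp hodd h.swap_bc.swap_b g))

/-- **The arithmetic theorem.** -/
theorem main_res (hp : N.Prime) {e : Fin 3 → Fin 3 → ℤ} (h : SG N e) (κ : Fin 3 → Fin 3)
    (hκ : (N : ℤ) ∣ ∑ i, e i (κ i)) : Same N e := by
  have h1 := (h.perm (Equiv.refl _) (fun i => Equiv.swap 0 (κ i))).rebase (fun i => e i (κ i)) hκ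
  have h2 : SG N (six (e 0 (Equiv.swap 0 (κ 0) 1) - e 0 (κ 0)) (e 0 (Equiv.swap 0 (κ 0) 2) - e 0 (κ 0))
      (e 1 (Equiv.swap 0 (κ 1) 1) - e 1 (κ 1)) (e 1 (Equiv.swap 0 (κ 1) 2) - e 1 (κ 1))
      (e 2 (Equiv.swap 0 (κ 2) 1) - e 2 (κ 2)) (e 2 (Equiv.swap 0 (κ 2) 2) - e 2 (κ 2))) := by
    refine h1.congr fun i l => ?_
    fin_cases i <;> fin_cases l <;> simp [six]
  refine (main_six hp h2).perm (Equiv.refl _) (fun i => Equiv.swap 0 (κ i))
    (fun i => e i (κ i)) fun i l => ?_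
  fin_cases i <;> fin_cases l <;> simp [six]

end Pool.Agent.R340.P3
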