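import Pool.Agent.R340.P3.SG
import Pool.Agent.R340.PC.Res

set_option autoImplicit false

/-!
First consequences of the inequalities for line subbundles in rank three with three points.
-/

open Finset

namespace Pool.Agent.R340.P3

open Pool.Agent.R340.PC (sw SS_unit odd_orth saw_cast)
open Pool.Agent.H916R2 (saw SS exists_SS_ne_zero saw_zero)

lemma emod_congr {n y z : ℤ} (h : n ∣ y - z) : y % n = z % n := (Int.modEq_iff_dvd.2 h).symm

section sg

variable {N : ℕ} {e : Fin 3 → Fin 3 → ℤ}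

lemma SG.perm (h : SG N e) (π : Equiv.Perm (Fin 3)) (σ : Fin 3 → Equiv.Perm (Fin 3)) :
    SG N (fun i l => e (π i) (σ i l)) := by
  intro u hu V hV
  have h1 : ∑ i, V (π.symm i) = ∑ i, V i := Equiv.sum_comp π.symm V
  have h2 : ∑ i, ∑ l, (u * e i l - V (π.symm i)) % N =
      ∑ i, ∑ l, (u * e (π i) (σ i l) - V i) % N := by
    rw [← Equiv.sum_comp π (fun i => ∑ l, (u * e i l - V (π.symm i)) % (N : ℤ))]
    refine sum_congr rfl fun i _ => ?_
    rw [Equiv.symm_apply_apply]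
    exact (Equiv.sum_comp (σ i) (fun l => (u * e (π i) l - V i) % (N : ℤ))).symm
  have := h u hu (fun i => V (π.symm i)) (by rw [h1, h2]; exact hV)
  rwa [h1] at this

lemma SG.congr (h : SG N e) {e' : Fin 3 → Fin 3 → ℤ} (he : ∀ i l, (N : ℤ) ∣ e i l - e' i l) :
    SG N e' := by
  intro u hu V hV
  refine h u hu V ?_
  have : ∀ i l, (u * e i l - V i) % (N : ℤ) = (u * e' i l - V i) % N := by
    intro i l
    refine emod_congr ?_
    obtain ⟨k, hk⟩ := he i l
    exact ⟨u * k, by linear_combination u * hk⟩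
  simp only [this]
  exact hV

lemma SG.rebase (h : SG N e) (t : Fin 3 → ℤ) (ht : (N : ℤ) ∣ ∑ i, t i) :
    SG N (fun i l => e i l - t i) := by
  intro u hu V hV
  obtain ⟨s, hs⟩ := ht
  have h1 : ∑ i, (V i + u * t i - if i = 0 then N * (u * s) else 0) = ∑ i, V i := by
    rw [sum_sub_distrib, sum_add_distrib, ← mul_sum, hs, sum_ite_eq' univ (0 : Fin 3), if_pos (mem_univ _)]
    ring
  have h2 : ∀ i l, (u * e i l - (V i + u * t i - if i = 0 then N * (u * s) else 0)) % (N : ℤ) =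
      (u * (e i l - t i) - V i) % N := by
    intro i l
    refine emod_congr ?_
    split_ifs
    · exact ⟨u * s, by ring⟩
    · exact ⟨0, by ring⟩
  have := h u hu (fun i => V i + u * t i - if i = 0 then N * (u * s) else 0) (by
    rw [h1]
    simp only [h2]
    exact hV)
  rwa [h1] at this

/-- The six numbers. -/
def six (a1 a2 b1 b2 c1 c2 : ℤ) : Fin 3 → Fin 3 → ℤ := ![![0, a1, a2], ![0, b1, b2], ![0, c1, c2]]

lemma emod_neg_add {N : ℕ} (hN : 0 < N) (z : ℤ) :
    z % N + (-z) % N = if (N : ℤ) ∣ z then 0 else (N : ℤ) := by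
  have hN0 : (0 : ℤ) < N := by exact_mod_cast hN
  split_ifs with h
  · rw [Int.emod_eq_zero_of_dvd h, Int.emod_eq_zero_of_dvd ((dvd_neg).2 h), add_zero]
  · have h0 := Int.emod_nonneg z hN0.ne'
    have h1 := Int.emod_lt_of_pos z hN0
    have h0' := Int.emod_nonneg (-z) hN0.ne'
    have h1' := Int.emod_lt_of_pos (-z) hN0
    have h2 : z % N ≠ 0 := fun h' => h (Int.dvd_of_emod_eq_zero h')
    obtain ⟨k, hk⟩ : (N : ℤ) ∣ z % N + (-z) % N := by
      have h3 : (N : ℤ) ∣ z - z % N := Int.dvd_self_sub_emod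
      have h4 : (N : ℤ) ∣ -z - (-z) % N := Int.dvd_self_sub_emod
      have h5 := (dvd_neg).2 (dvd_add h3 h4)
      have h6 : -(z - z % N + (-z - (-z) % N)) = z % N + (-z) % N := by ring
      rwa [h6] at h5
    have h7 : 0 < k := by
      have : 0 < (N : ℤ) * k := by rw [← hk]; omega
      exact (mul_pos_iff_of_pos_left hN0).1 this
    have h8 : k < 2 := by
      by_contra hc
      push Not at hc
      have : (N : ℤ) * 2 ≤ N * k := mul_le_mul_of_nonneg_left hc hN0.le
      linarith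
    have h9 : k = 1 := by omega
    rw [hk, h9, mul_one]

variable {a1 a2 b1 b2 c1 c2 : ℤ}

/-- The inequality in terms of the six numbers. -/
lemma SG.ineq (h : SG N (six a1 a2 b1 b2 c1 c2)) (u : ℤ) (hu : IsCoprime u (N : ℤ)) (p q r : ℤ)
    (hlt : 3 * (p + q + r) + (((-p) % N + (u * a1 - p) % N + (u * a2 - p) % N) +
      ((-q) % N + (u * b1 - q) % N + (u * b2 - q) % N) +
      ((-r) % N + (u * c1 - r) % N + (u * c2 - r) % N)) < 3 * N) : p + q + r < 0 := by
  have h1 := h u hu ![p, q, r]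
  simp only [Fin.sum_univ_three, six, Matrix.cons_val_zero, Matrix.cons_val_one,
    Matrix.cons_val, mul_zero, zero_sub] at h1
  exact h1 (by linarith)

/-- The sum of the residues is `3 N`, and no number is divisible by `N`. -/
lemma SG.sum_eq (hN : 0 < N) (h : SG N (six a1 a2 b1 b2 c1 c2)) (u : ℤ) (hu : IsCoprime u (N : ℤ)) :
    (u * a1) % N + (u * a2) % N + (u * b1) % N + (u * b2) % N + (u * c1) % N + (u * c2) % N = 3 * N ∧
    ¬ (N : ℤ) ∣ u * a1 ∧ ¬ (N : ℤ) ∣ u * a2 ∧ ¬ (N : ℤ) ∣ u * b1 ∧ ¬ (N : ℤ) ∣ u * b2 ∧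
    ¬ (N : ℤ) ∣ u * c1 ∧ ¬ (N : ℤ) ∣ u * c2 := by
  have hNz : (0 : ℤ) < N := by exact_mod_cast hN
  have key : ∀ u : ℤ, IsCoprime u (N : ℤ) → 3 * (N : ℤ) ≤
      (u * a1) % N + (u * a2) % N + (u * b1) % N + (u * b2) % N + (u * c1) % N + (u * c2) % N := by
    intro u hu
    by_contra hlt
    push Not at hlt
    have := h.ineq u hu 0 0 0 (by
      simp only [neg_zero, sub_zero, Int.zero_emod]
      linarith)
    linarith
  have k1 := key u hu
  have k2 := key (-u) hu.neg_left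
  simp only [neg_mul] at k2
  have e1 := emod_neg_add hN (u * a1)
  have e2 := emod_neg_add hN (u * a2)
  have e3 := emod_neg_add hN (u * b1)
  have e4 := emod_neg_add hN (u * b2)
  have e5 := emod_neg_add hN (u * c1)
  have e6 := emod_neg_add hN (u * c2)
  split_ifs at e1 e2 e3 e4 e5 e6
  all_goals first | exact ⟨by omega, ‹_›, ‹_›, ‹_›, ‹_›, ‹_›, ‹_›⟩ | (exfalso; omega)

lemma emod_sub_le (hN : 0 < N) {z p X : ℤ} (hX : z % N = X) (h1 : p ≤ X) (h2 : 0 ≤ p) :
    (z - p) % N = X - p := by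
  have hNz : (0 : ℤ) < N := by exact_mod_cast hN
  have h3 := Int.emod_lt_of_pos z hNz
  rw [hX] at h3
  have h4 : (z - p) % (N : ℤ) = (X - p) % N := emod_congr (by
    rw [← hX]
    have : z - p - (z % N - p) = z - z % N := by ring
    rw [this]
    exact Int.dvd_self_sub_emod)
  rw [h4]
  exact Int.emod_eq_of_lt (by linarith) (by linarith)

lemma emod_sub_lt (hN : 0 < N) {z p X : ℤ} (hX : z % N = X) (h1 : X < p) (h2 : p ≤ N) :
    (z - p) % N = X - p + N := by
  have hNz : (0 : ℤ) < N := by exact_mod_cast hN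
  have h0 := Int.emod_nonneg z hNz.ne'
  rw [hX] at h0
  have h4 : (z - p) % (N : ℤ) = (X - p + N) % N := emod_congr (by
    rw [← hX]
    have : z - p - (z % N - p + N) = (z - z % N) + N * (-1) := by ring
    rw [this]
    exact dvd_add Int.dvd_self_sub_emod (dvd_mul_right _ _))
  rw [h4]
  exact Int.emod_eq_of_lt (by linarith) (by linarith)

/-- The residues at one point, shifted by the minimum. -/
lemma shift_min (hN : 0 < N) {x1 x2 : ℤ} (h1 : ¬ (N : ℤ) ∣ x1) (h2 : ¬ (N : ℤ) ∣ x2) :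
    3 * min (x1 % N) (x2 % N) + ((-min (x1 % N) (x2 % N)) % N + (x1 - min (x1 % N) (x2 % N)) % N +
      (x2 - min (x1 % N) (x2 % N)) % N) = N + x1 % N + x2 % N := by
  have hNz : (0 : ℤ) < N := by exact_mod_cast hN
  have a0 := Int.emod_nonneg x1 hNz.ne'
  have a1 := Int.emod_lt_of_pos x1 hNz
  have b0 := Int.emod_nonneg x2 hNz.ne'
  have b1 := Int.emod_lt_of_pos x2 hNz
  have c1 : x1 % N ≠ 0 := fun h => h1 (Int.dvd_of_emod_eq_zero h)
  have c2 : x2 % N ≠ 0 := fun h => h2 (Int.dvd_of_emod_eq_zero h)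
  set p := min (x1 % N) (x2 % N) with hp
  have p0 : 0 < p := lt_min (by omega) (by omega)
  have p1 : p ≤ x1 % N := min_le_left _ _
  have p2 : p ≤ x2 % N := min_le_right _ _
  rw [emod_sub_le hN rfl p1 p0.le, emod_sub_le hN rfl p2 p0.le]
  have h3 := emod_sub_lt hN (z := 0) (p := p) (X := 0) (Int.zero_emod _) p0 (by omega)
  rw [zero_sub] at h3
  rw [h3]
  ring

/-- The residues at one point, shifted by the maximum. -/
lemma shift_max (hN : 0 < N) {x1 x2 : ℤ} (h1 : ¬ (N : ℤ) ∣ x1) :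
    3 * max (x1 % N) (x2 % N) + ((-max (x1 % N) (x2 % N)) % N + (x1 - max (x1 % N) (x2 % N)) % N +
      (x2 - max (x1 % N) (x2 % N)) % N) ≤ 2 * N + x1 % N + x2 % N := by
  have hNz : (0 : ℤ) < N := by exact_mod_cast hN
  have a0 := Int.emod_nonneg x1 hNz.ne'
  have a1 := Int.emod_lt_of_pos x1 hNz
  have b0 := Int.emod_nonneg x2 hNz.ne'
  have b1 := Int.emod_lt_of_pos x2 hNz
  have c1 : x1 % N ≠ 0 := fun h => h1 (Int.dvd_of_emod_eq_zero h)
  have h3 : ∀ p : ℤ, 0 < p → p < N → (-p) % (N : ℤ) = N - p := by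
    intro p p0 p1
    have h3 := emod_sub_lt hN (z := 0) (p := p) (X := 0) (Int.zero_emod _) p0 p1.le
    rw [zero_sub] at h3
    rw [h3]
    ring
  rcases lt_trichotomy (x1 % N) (x2 % N) with h | h | h
  · rw [max_eq_right h.le, emod_sub_lt hN rfl h (by linarith), emod_sub_le hN rfl le_rfl (by linarith),
      h3 _ (by linarith) b1]
    linarith
  · rw [← h, max_self, emod_sub_le hN rfl le_rfl (by linarith), emod_sub_le hN h.symm le_rfl (by linarith),
      h3 _ (by omega) a1]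
    linarith
  · rw [max_eq_left h.le, emod_sub_lt hN rfl h (by linarith), emod_sub_le hN rfl le_rfl (by linarith),
      h3 _ (by linarith) a1]
    linarith

lemma shift_N (k : ℤ) (x1 x2 : ℤ) :
    (-(N * k)) % (N : ℤ) + (x1 - N * k) % N + (x2 - N * k) % N = x1 % N + x2 % N := by
  rw [Int.emod_eq_zero_of_dvd ⟨-k, by ring⟩,
    emod_congr (n := (N : ℤ)) (y := x1 - N * k) (z := x1) ⟨-k, by ring⟩,
    emod_congr (n := (N : ℤ)) (y := x2 - N * k) (z := x2) ⟨-k, by ring⟩]
  ring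

/-- The first inequality. -/
lemma SG.C1 (hN : 0 < N) (h : SG N (six a1 a2 b1 b2 c1 c2)) (u : ℤ) (hu : IsCoprime u (N : ℤ)) :
    min ((u * a1) % N) ((u * a2) % N) + min ((u * b1) % N) ((u * b2) % N) < N := by
  obtain ⟨hs, n1, n2, n3, n4, n5, n6⟩ := h.sum_eq hN u hu
  have h1 := shift_min hN n1 n2
  have h2 := shift_min hN n3 n4
  have h3 := shift_N (N := N) (-1) (u * c1) (u * c2)
  have := h.ineq u hu (min ((u * a1) % N) ((u * a2) % N)) (min ((u * b1) % N) ((u * b2) % N))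
    (N * (-1)) (by
      have hNz : (0 : ℤ) < N := by exact_mod_cast hN
      linarith)
  linarith

/-- The second inequality. -/
lemma SG.C2 (hN : 0 < N) (h : SG N (six a1 a2 b1 b2 c1 c2)) (u : ℤ) (hu : IsCoprime u (N : ℤ)) :
    max ((u * a1) % N) ((u * a2) % N) + max ((u * b1) % N) ((u * b2) % N) +
      min ((u * c1) % N) ((u * c2) % N) < 2 * N := by
  obtain ⟨hs, n1, n2, n3, n4, n5, n6⟩ := h.sum_eq hN u hu
  have h1 := shift_max hN (x2 := u * a2) n1
  have h2 := shift_max hN (x2 := u * b2) n3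
  have h3 := shift_min hN n5 n6
  set p := max ((u * a1) % N) ((u * a2) % N)
  set q := max ((u * b1) % N) ((u * b2) % N)
  set r := min ((u * c1) % N) ((u * c2) % N)
  have h4 : (-(r + N * (-2))) % (N : ℤ) = (-r) % N := emod_congr ⟨2, by ring⟩
  have h5 : (u * c1 - (r + N * (-2))) % (N : ℤ) = (u * c1 - r) % N := emod_congr ⟨2, by ring⟩
  have h6 : (u * c2 - (r + N * (-2))) % (N : ℤ) = (u * c2 - r) % N := emod_congr ⟨2, by ring⟩
  have := h.ineq u hu p q (r + N * (-2)) (by
      have hNz : (0 : ℤ) < N := by exact_mod_cast hN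
      rw [h4, h5, h6]
      linarith)
  linarith

/-- The permutations of the six numbers. -/
lemma SG.swap_ab (h : SG N (six a1 a2 b1 b2 c1 c2)) : SG N (six b1 b2 a1 a2 c1 c2) := by
  have := h.perm (Equiv.swap 0 1) (fun _ => Equiv.refl _)
  refine this.congr fun i l => ?_
  fin_cases i <;> fin_cases l <;> simp [six, Equiv.swap_apply_def]

lemma SG.swap_bc (h : SG N (six a1 a2 b1 b2 c1 c2)) : SG N (six a1 a2 c1 c2 b1 b2) := by
  have := h.perm (Equiv.swap 1 2) (fun _ => Equiv.refl _)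
  refine this.congr fun i l => ?_
  fin_cases i <;> fin_cases l <;> simp [six, Equiv.swap_apply_def]

lemma SG.swap_a (h : SG N (six a1 a2 b1 b2 c1 c2)) : SG N (six a2 a1 b1 b2 c1 c2) := by
  have := h.perm (Equiv.refl _) (fun i => if i = 0 then Equiv.swap 1 2 else Equiv.refl _)
  refine this.congr fun i l => ?_
  fin_cases i <;> fin_cases l <;> simp [six, Equiv.swap_apply_def]

/-- The sawtooth sums vanish. -/
lemma SG.saw (hN : 0 < N) (h : SG N (six a1 a2 b1 b2 c1 c2)) (u : ℤ) (hu : IsCoprime u (N : ℤ)) :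
    sw N (u * a1) + sw N (u * a2) + sw N (u * b1) + sw N (u * b2) + sw N (u * c1) +
      sw N (u * c2) = 0 := by
  obtain ⟨hs, n1, n2, n3, n4, n5, n6⟩ := h.sum_eq hN u hu
  unfold sw
  rw [if_neg n1, if_neg n2, if_neg n3, if_neg n4, if_neg n5, if_neg n6]
  linarith

end sg

end Pool.Agent.R340.P3
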