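import Pool.Agent.R340.P3.PairAny
import Pool.Agent.W280.PC.Average

set_option autoImplicit false

/-!
Three points on the circle of the residues modulo a prime number and a number `x` such that for no
multiple the three points lie on an arc of length the distance of `x` from zero.
-/

open Finset

namespace Pool.Agent.R340.P3

open Pool.Agent.W280.PC (Q Q_eq Q_eq_F F sum_F_unit Q_congr)

/-- The distance from the multiples of `N`. -/
def dst (N : ℕ) (z : ℤ) : ℤ := min (z % N) (N - z % N)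

/-- The three points `u * T i` do not lie on an arc of length `dst (u * x)`. -/
def Gap (N : ℕ) (x : ℤ) (T : Fin 3 → ℤ) : Prop :=
  ∀ u : ℤ, IsCoprime u (N : ℤ) → ∀ i, ∃ j, dst N (u * x) < (u * (T j - T i)) % N

section dst

variable {N : ℕ}

lemma dst_spec (hN : 0 < N) (z : ℤ) : 0 ≤ dst N z ∧ 2 * dst N z ≤ N ∧
    ((N : ℤ) ∣ z - dst N z ∨ (N : ℤ) ∣ z + dst N z) := by
  have hNz : (0 : ℤ) < N := by exact_mod_cast hN
  have h0 := Int.emod_nonneg z hNz.ne'
  have h1 := Int.emod_lt_of_pos z hNz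
  have h2 : (N : ℤ) ∣ z - z % N := Int.dvd_self_sub_emod
  unfold dst
  rcases le_total (z % (N : ℤ)) (N - z % N) with h | h
  · rw [min_eq_left h]
    exact ⟨h0, by omega, Or.inl h2⟩
  · rw [min_eq_right h]
    refine ⟨by omega, by omega, Or.inr ?_⟩
    obtain ⟨k, hk⟩ := h2
    exact ⟨k + 1, by linear_combination hk⟩

lemma dst_pos (hN : 0 < N) {z : ℤ} (hz : ¬ (N : ℤ) ∣ z) : 0 < dst N z := by
  obtain ⟨h0, h1, h2⟩ := dst_spec hN z
  refine lt_of_le_of_ne h0 fun h => hz ?_
  rw [← h] at h2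
  simpa using h2

lemma Q_dst (hN : 0 < N) (z : ℤ) : Q N z = dst N z ^ 2 - N * dst N z := by
  obtain ⟨h0, h1, h2⟩ := dst_spec hN z
  rcases h2 with h2 | h2
  · rw [Q_eq hN h2 (by rw [abs_of_nonneg h0]; omega), abs_of_nonneg h0]
  · have h3 : (N : ℤ) ∣ z - (-dst N z) := by rwa [sub_neg_eq_add]
    rw [Q_eq hN h3 (by rw [abs_neg, abs_of_nonneg h0]; omega), abs_neg, abs_of_nonneg h0]
    ring

lemma Q_sum (hN : 0 < N) (p q : ℤ) : Q N (p + q) + Q N (p - q) =
    2 * dst N p ^ 2 + 2 * dst N q ^ 2 - 2 * N * max (dst N p) (dst N q) := by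
  obtain ⟨a0, a1, a2⟩ := dst_spec hN p
  obtain ⟨b0, b1, b2⟩ := dst_spec hN q
  set A := dst N p
  set B := dst N q
  have hmax : |A - B| = 2 * max A B - A - B := by
    rcases le_total A B with h | h
    · rw [max_eq_right h, abs_of_nonpos (by linarith)]; ring
    · rw [max_eq_left h, abs_of_nonneg (by linarith)]; ring
  have hab : |A - B| ≤ N := by rw [abs_le]; constructor <;> omega
  have hba : |-(A - B)| ≤ N := by rw [abs_neg]; exact hab
  have hs : |A + B| ≤ N := by rw [abs_of_nonneg (by linarith)]; omega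
  have hs' : |-(A + B)| ≤ N := by rw [abs_neg]; exact hs
  have e1 : |A + B| = A + B := abs_of_nonneg (by linarith)
  rcases a2 with ⟨k, hk⟩ | ⟨k, hk⟩ <;> rcases b2 with ⟨l, hl⟩ | ⟨l, hl⟩
  · rw [Q_eq hN (y := A + B) ⟨k + l, by linear_combination hk + hl⟩ hs,
      Q_eq hN (y := A - B) ⟨k - l, by linear_combination hk - hl⟩ hab, hmax, e1]
    ring
  · rw [Q_eq hN (y := A - B) ⟨k + l, by linear_combination hk + hl⟩ hab,
      Q_eq hN (y := A + B) ⟨k - l, by linear_combination hk - hl⟩ hs, hmax, e1]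
    ring
  · rw [Q_eq hN (y := -(A - B)) ⟨k + l, by linear_combination hk + hl⟩ hba,
      Q_eq hN (y := -(A + B)) ⟨k - l, by linear_combination hk - hl⟩ hs', abs_neg, abs_neg, hmax, e1]
    ring
  · rw [Q_eq hN (y := -(A + B)) ⟨k + l, by linear_combination hk + hl⟩ hs',
      Q_eq hN (y := -(A - B)) ⟨k - l, by linear_combination hk - hl⟩ hba, abs_neg, abs_neg, hmax, e1]
    ring

end dst

/-- The elementary inequality. -/
lemma gap_ineq {N A b1 b2 b3 : ℤ} (hA : 0 < A) (hA2 : 2 * A < N) (h1 : 0 < b1) (h2 : 0 < b2)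
    (h3 : 0 < b3) (hs : b1 + b2 + b3 = N) (g1 : b1 < N - A) (g2 : b2 < N - A) (g3 : b3 < N - A) :
    (max A (min b1 (N - b1)) - min b1 (N - b1)) + (max A (min b2 (N - b2)) - min b2 (N - b2)) +
      (max A (min b3 (N - b3)) - min b3 (N - b3)) < A := by
  rcases le_total b1 (N - b1) with e1 | e1 <;> rcases le_total b2 (N - b2) with e2 | e2 <;>
    rcases le_total b3 (N - b3) with e3 | e3 <;>
    simp only [min_eq_left, min_eq_right, e1, e2, e3] <;>
    rcases le_total A b1 with f1 | f1 <;> rcases le_total A b2 with f2 | f2 <;>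
    rcases le_total A b3 with f3 | f3 <;>
    rcases le_total A (N - b1) with f4 | f4 <;> rcases le_total A (N - b2) with f5 | f5 <;>
    rcases le_total A (N - b3) with f6 | f6 <;>
    simp only [max_eq_left, max_eq_right, f1, f2, f3, f4, f5, f6] <;> omega

end Pool.Agent.R340.P3
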