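import Pool.Agent.R340.P3.Gap

set_option autoImplicit false

/-!
If the three points never lie on an arc of length the distance of `x`, they form an arithmetic
progression with difference `x`.
-/

open Finset

namespace Pool.Agent.R340.P3

open Pool.Agent.W280.PC (Q Q_eq Q_eq_F F sum_F_unit Q_congr)

lemma dst_lt {N : ℕ} (hodd : Odd N) (hN : 0 < N) (z : ℤ) : 2 * dst N z < N := by
  obtain ⟨h0, h1, h2⟩ := dst_spec hN z
  obtain ⟨n, hn⟩ := hodd
  omega

lemma dst_mod {N : ℕ} {z b : ℤ} (hb : z % N = b) : dst N z = min b (N - b) := by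
  unfold dst
  rw [hb]

/-- The pointwise inequality. -/
lemma gap_point {N : ℕ} (hodd : Odd N) (hN : 0 < N) {x t1 t2 t3 : ℤ} (hx : ¬ (N : ℤ) ∣ x)
    (h1 : ¬ (N : ℤ) ∣ t1) (h2 : ¬ (N : ℤ) ∣ t2) (h3 : ¬ (N : ℤ) ∣ t3) (hs : t1 + t2 + t3 = 0)
    (hg : (∀ i : Fin 3, ¬ ((-![t1, t2, t3] i) % N ≤ dst N x ∧ (![t2, t3, t1] i) % N ≤ dst N x)) ) :
    0 < 2 * Q N x - 2 * Q N (x + x) + (Q N (x + t1) + Q N (x - t1) - 2 * Q N t1) +
      (Q N (x + t2) + Q N (x - t2) - 2 * Q N t2) + (Q N (x + t3) + Q N (x - t3) - 2 * Q N t3) := by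
  have hNz : (0 : ℤ) < N := by exact_mod_cast hN
  have g1 := hg 0
  have g2 := hg 1
  have g3 := hg 2
  simp only [Matrix.cons_val_zero, Matrix.cons_val_one, Matrix.cons_val] at g1 g2 g3
  have hA := dst_pos hN hx
  have hA2 := dst_lt hodd hN x
  have e0 := Q_sum hN x x
  have eQ0 : Q N (x - x) = 0 := by
    rw [sub_self]
    unfold Q
    simp
  rw [eQ0, max_self] at e0
  have eQ := Q_dst hN x
  have e1 := Q_sum hN x t1
  have e2 := Q_sum hN x t2
  have e3 := Q_sum hN x t3
  have q1 := Q_dst hN t1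
  have q2 := Q_dst hN t2
  have q3 := Q_dst hN t3
  set A := dst N x with hAdef
  -- residues
  have a1 := Int.emod_nonneg t1 hNz.ne'
  have a2 := Int.emod_nonneg t2 hNz.ne'
  have a3 := Int.emod_nonneg t3 hNz.ne'
  have b1 := Int.emod_lt_of_pos t1 hNz
  have b2 := Int.emod_lt_of_pos t2 hNz
  have b3 := Int.emod_lt_of_pos t3 hNz
  have c1 : t1 % N ≠ 0 := fun h => h1 (Int.dvd_of_emod_eq_zero h)
  have c2 : t2 % N ≠ 0 := fun h => h2 (Int.dvd_of_emod_eq_zero h)
  have c3 : t3 % N ≠ 0 := fun h => h3 (Int.dvd_of_emod_eq_zero h)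
  have n1 := emod_neg_add hN t1
  have n2 := emod_neg_add hN t2
  have n3 := emod_neg_add hN t3
  rw [if_neg h1] at n1
  rw [if_neg h2] at n2
  rw [if_neg h3] at n3
  have hsum : t1 % N + t2 % N + t3 % N = N ∨ t1 % N + t2 % N + t3 % N = 2 * N := by
    obtain ⟨k, hk⟩ : (N : ℤ) ∣ t1 % N + t2 % N + t3 % N := by
      have k1 : (N : ℤ) ∣ t1 - t1 % N := Int.dvd_self_sub_emod
      have k2 : (N : ℤ) ∣ t2 - t2 % N := Int.dvd_self_sub_emod
      have k3 : (N : ℤ) ∣ t3 - t3 % N := Int.dvd_self_sub_emod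
      have k4 := (dvd_neg).2 (dvd_add (dvd_add k1 k2) k3)
      have k5 : -(t1 - t1 % N + (t2 - t2 % N) + (t3 - t3 % N)) = t1 % N + t2 % N + t3 % N := by
        linear_combination -hs
      rwa [k5] at k4
    have k0 : 0 < k := by
      by_contra hc
      push Not at hc
      have : (N : ℤ) * k ≤ 0 := mul_nonpos_of_nonneg_of_nonpos hNz.le hc
      omega
    have k1 : k < 3 := by
      by_contra hc
      push Not at hc
      have : (N : ℤ) * 3 ≤ N * k := mul_le_mul_of_nonneg_left hc hNz.le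
      omega
    have k2 : k = 1 ∨ k = 2 := by omega
    rcases k2 with rfl | rfl
    · left; linarith
    · right; linarith
  have hB1 := dst_mod (N := N) (z := t1) rfl
  have hB2 := dst_mod (N := N) (z := t2) rfl
  have hB3 := dst_mod (N := N) (z := t3) rfl
  have key : (max A (dst N t1) - dst N t1) + (max A (dst N t2) - dst N t2) +
      (max A (dst N t3) - dst N t3) < A := by
    rcases hsum with hsum | hsum
    · rw [hB1, hB2, hB3]
      refine gap_ineq hA hA2 (by omega) (by omega) (by omega) hsum ?_ ?_ ?_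
      · by_contra hc
        push Not at hc
        exact g1 ⟨by omega, by omega⟩
      · by_contra hc
        push Not at hc
        exact g2 ⟨by omega, by omega⟩
      · by_contra hc
        push Not at hc
        exact g3 ⟨by omega, by omega⟩
    · have m1 : dst N t1 = min (N - t1 % N) (N - (N - t1 % N)) := by
        rw [hB1, min_comm]; congr 1; ring
      have m2 : dst N t2 = min (N - t2 % N) (N - (N - t2 % N)) := by
        rw [hB2, min_comm]; congr 1; ring
      have m3 : dst N t3 = min (N - t3 % N) (N - (N - t3 % N)) := by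
        rw [hB3, min_comm]; congr 1; ring
      rw [m1, m2, m3]
      refine gap_ineq hA hA2 (by omega) (by omega) (by omega) (by linarith) ?_ ?_ ?_
      · by_contra hc
        push Not at hc
        exact g3 ⟨by omega, by omega⟩
      · by_contra hc
        push Not at hc
        exact g1 ⟨by omega, by omega⟩
      · by_contra hc
        push Not at hc
        exact g2 ⟨by omega, by omega⟩
  have hfin : 2 * Q N x - 2 * Q N (x + x) + (Q N (x + t1) + Q N (x - t1) - 2 * Q N t1) +
      (Q N (x + t2) + Q N (x - t2) - 2 * Q N t2) + (Q N (x + t3) + Q N (x - t3) - 2 * Q N t3) =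
      2 * N * (A - ((max A (dst N t1) - dst N t1) + (max A (dst N t2) - dst N t2) +
      (max A (dst N t3) - dst N t3))) := by
    rw [add_zero] at e0
    linear_combination 2 * eQ - 2 * e0 + e1 + e2 + e3 - 2 * q1 - 2 * q2 - 2 * q3
  rw [hfin]
  have : (0 : ℤ) < 2 * N := by linarith
  exact mul_pos this (by linarith)

/-- The distance is one of the differences. -/
theorem gap_diff {N : ℕ} (hp : N.Prime) (hodd : Odd N) {x : ℤ} (hx : ¬ (N : ℤ) ∣ x)
    {T : Fin 3 → ℤ} (hT : ∀ i j, i ≠ j → ¬ (N : ℤ) ∣ T i - T j) (hg : Gap N x T) :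
    ∃ i j, i ≠ j ∧ (N : ℤ) ∣ x - (T i - T j) := by
  classical
  by_contra hcon
  push Not at hcon
  have hN := hp.pos
  have : NeZero N := ⟨hp.ne_zero⟩
  have hpr := Nat.prime_iff_prime_int.1 hp
  have hcop : ∀ {z : ℤ}, ¬ (N : ℤ) ∣ z → IsCoprime z (N : ℤ) := fun {z} hz =>
    (hpr.coprime_iff_not_dvd.2 hz).symm
  have hN2 : IsCoprime (N : ℤ) 2 := by
    have := (Nat.coprime_two_right).2 hodd
    exact_mod_cast this.isCoprime
  set t1 := T 1 - T 0 with ht1
  set t2 := T 2 - T 1 with ht2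
  set t3 := T 0 - T 2 with ht3
  have n1 : ¬ (N : ℤ) ∣ t1 := hT 1 0 (by decide)
  have n2 : ¬ (N : ℤ) ∣ t2 := hT 2 1 (by decide)
  have n3 : ¬ (N : ℤ) ∣ t3 := hT 0 2 (by decide)
  have hxx : ¬ (N : ℤ) ∣ x + x := by
    intro h
    rw [← two_mul] at h
    exact hx (hN2.dvd_of_dvd_mul_left h)
  have p1 : ¬ (N : ℤ) ∣ x - t1 := hcon 1 0 (by decide)
  have p2 : ¬ (N : ℤ) ∣ x - t2 := hcon 2 1 (by decide)
  have p3 : ¬ (N : ℤ) ∣ x - t3 := hcon 0 2 (by decide)
  have m1 : ¬ (N : ℤ) ∣ x + t1 := by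
    have := hcon 0 1 (by decide)
    rwa [show x - (T 0 - T 1) = x + t1 by rw [ht1]; ring] at this
  have m2 : ¬ (N : ℤ) ∣ x + t2 := by
    have := hcon 1 2 (by decide)
    rwa [show x - (T 1 - T 2) = x + t2 by rw [ht2]; ring] at this
  have m3 : ¬ (N : ℤ) ∣ x + t3 := by
    have := hcon 2 0 (by decide)
    rwa [show x - (T 2 - T 0) = x + t3 by rw [ht3]; ring] at this
  have hpt : ∀ u : ℤ, IsCoprime u (N : ℤ) → 0 < 2 * Q N (u * x) - 2 * Q N (u * (x + x)) +
      (Q N (u * (x + t1)) + Q N (u * (x - t1)) - 2 * Q N (u * t1)) +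
      (Q N (u * (x + t2)) + Q N (u * (x - t2)) - 2 * Q N (u * t2)) +
      (Q N (u * (x + t3)) + Q N (u * (x - t3)) - 2 * Q N (u * t3)) := by
    intro u hu
    have hnd : ∀ {z : ℤ}, ¬ (N : ℤ) ∣ z → ¬ (N : ℤ) ∣ u * z := fun {z} hz h =>
      hz (hu.symm.dvd_of_dvd_mul_left h)
    simp only [mul_add, mul_sub]
    refine gap_point hodd hN (hnd hx) (hnd n1) (hnd n2) (hnd n3) (by rw [ht1, ht2, ht3]; ring) ?_
    intro i
    rintro ⟨h1, h2⟩
    have hA := dst_pos hN (hnd hx)
    fin_cases i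
    · simp only [Fin.zero_eta, Matrix.cons_val_zero] at h1 h2
      obtain ⟨j, hj⟩ := hg u hu 1
      fin_cases j
      · simp only [Fin.zero_eta] at hj
        rw [show u * (T 0 - T 1) = -(u * t1) by rw [ht1]; ring] at hj
        linarith
      · simp only [Fin.mk_one, sub_self, mul_zero, Int.zero_emod] at hj
        linarith
      · simp only [Fin.reduceFinMk] at hj
        rw [← ht2] at hj
        linarith
    · simp only [Fin.mk_one, Matrix.cons_val_one] at h1 h2
      obtain ⟨j, hj⟩ := hg u hu 2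
      fin_cases j
      · simp only [Fin.zero_eta] at hj
        rw [← ht3] at hj
        simp only [Matrix.cons_val_zero] at h2
        linarith
      · simp only [Fin.mk_one] at hj
        rw [show u * (T 1 - T 2) = -(u * t2) by rw [ht2]; ring] at hj
        simp only [Matrix.cons_val_zero] at h1
        linarith
      · simp only [Fin.reduceFinMk, sub_self, mul_zero, Int.zero_emod] at hj
        linarith
    · simp only [Fin.reduceFinMk, Matrix.cons_val] at h1 h2
      obtain ⟨j, hj⟩ := hg u hu 0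
      fin_cases j
      · simp only [Fin.zero_eta, sub_self, mul_zero, Int.zero_emod] at hj
        linarith
      · simp only [Fin.mk_one] at hj
        rw [← ht1] at hj
        linarith
      · simp only [Fin.reduceFinMk] at hj
        rw [show u * (T 2 - T 0) = -(u * t3) by rw [ht3]; ring] at hj
        linarith
  -- averaging
  have hpos : 0 < ∑ u : (ZMod N)ˣ, (2 * F N ((u : ZMod N) * ((x : ℤ) : ZMod N)) -
      2 * F N ((u : ZMod N) * ((x + x : ℤ) : ZMod N)) +
      (F N ((u : ZMod N) * ((x + t1 : ℤ) : ZMod N)) + F N ((u : ZMod N) * ((x - t1 : ℤ) : ZMod N)) -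
        2 * F N ((u : ZMod N) * ((t1 : ℤ) : ZMod N))) +
      (F N ((u : ZMod N) * ((x + t2 : ℤ) : ZMod N)) + F N ((u : ZMod N) * ((x - t2 : ℤ) : ZMod N)) -
        2 * F N ((u : ZMod N) * ((t2 : ℤ) : ZMod N))) +
      (F N ((u : ZMod N) * ((x + t3 : ℤ) : ZMod N)) + F N ((u : ZMod N) * ((x - t3 : ℤ) : ZMod N)) -
        2 * F N ((u : ZMod N) * ((t3 : ℤ) : ZMod N)))) := by
    refine sum_pos (fun u _ => ?_) ⟨1, mem_univ _⟩
    set c : ℤ := ((u : ZMod N).val : ℤ) with hc
    have hcN : ((c : ℤ) : ZMod N) = u := by rw [hc]; simp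
    have hcc : IsCoprime c (N : ℤ) := by
      refine ((ZMod.coe_int_isUnit_iff_isCoprime c N).1 ?_).symm
      rw [hcN]
      exact u.isUnit
    have := hpt c hcc
    simp only [Q_eq_F] at this
    simp only [Int.cast_mul (c), hcN] at this
    exact this
  simp only [sum_add_distrib, sum_sub_distrib, ← mul_sum] at hpos
  rw [sum_F_unit N (hcop hx), sum_F_unit N (hcop hxx), sum_F_unit N (hcop m1),
    sum_F_unit N (hcop m2), sum_F_unit N (hcop m3), sum_F_unit N (hcop p1), sum_F_unit N (hcop p2),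
    sum_F_unit N (hcop p3), sum_F_unit N (hcop n1), sum_F_unit N (hcop n2),
    sum_F_unit N (hcop n3)] at hpos
  linarith

lemma exists_third : ∀ i j : Fin 3, ∃ k : Fin 3, k ≠ i ∧ k ≠ j := by decide

lemma one_of_three {i j k : Fin 3} (h1 : i ≠ j) (h2 : k ≠ i) (h3 : k ≠ j) (l : Fin 3) :
    l = i ∨ l = j ∨ l = k := by
  have key : ∀ i j k l : Fin 3, i ≠ j → k ≠ i → k ≠ j → l = i ∨ l = j ∨ l = k := by decide
  exact key i j k l h1 h2 h3

/-- The three points form an arithmetic progression with difference `x`. -/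
theorem gap_ap {N : ℕ} (hp : N.Prime) (hodd : Odd N) {x : ℤ} (hx : ¬ (N : ℤ) ∣ x)
    {T : Fin 3 → ℤ} (hT : ∀ i j, i ≠ j → ¬ (N : ℤ) ∣ T i - T j) (hg : Gap N x T) :
    ∃ i j k, i ≠ j ∧ k ≠ i ∧ k ≠ j ∧ (N : ℤ) ∣ x - (T i - T j) ∧
      ((N : ℤ) ∣ (T k - T j) - 2 * x ∨ (N : ℤ) ∣ (T k - T j) + x) := by
  obtain ⟨i, j, hij, hd⟩ := gap_diff hp hodd hx hT hg
  obtain ⟨k, hki, hkj⟩ := exists_third i j
  refine ⟨i, j, k, hij, hki, hkj, hd, ?_⟩
  have hN := hp.pos
  have hNz : (0 : ℤ) < N := by exact_mod_cast hN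
  have hpr := Nat.prime_iff_prime_int.1 hp
  have hcop : ∀ {z : ℤ}, ¬ (N : ℤ) ∣ z → IsCoprime z (N : ℤ) := fun {z} hz =>
    (hpr.coprime_iff_not_dvd.2 hz).symm
  obtain ⟨y, s, hys⟩ := hcop hx
  have hy : IsCoprime y (N : ℤ) := ⟨x, s, by linear_combination hys⟩
  have h3 : 3 ≤ N := by
    have := hp.two_le
    obtain ⟨n, hn⟩ := hodd
    omega
  set w := (y * (T k - T j)) % N with hw
  have hw1 := Int.emod_lt_of_pos (y * (T k - T j)) hNz
  have H : ∀ v : ℤ, 0 < v → 2 * v < N → v < (v * w) % N := by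
    intro v hv0 hv1
    have hv : IsCoprime v (N : ℤ) := by
      refine hcop fun h => ?_
      have := Int.le_of_dvd hv0 h
      omega
    obtain ⟨l, hl⟩ := hg (v * y) (hv.mul_left hy) j
    have hvx : (v * y * x) % N = v := by
      have e1 : (v * y * x) % (N : ℤ) = v % N := emod_congr ⟨-(v * s), by linear_combination v * hys⟩
      rw [e1]
      exact Int.emod_eq_of_lt (by omega) (by omega)
    have hdst : dst N (v * y * x) = v := by
      rw [dst_mod hvx]
      exact min_eq_left (by omega)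
    rw [hdst] at hl
    have hl' : l = i ∨ l = j ∨ l = k := one_of_three hij hki hkj l
    rcases hl' with rfl | rfl | rfl
    · exfalso
      have e1 : (v * y * (T l - T j)) % (N : ℤ) = (v * y * x) % N := emod_congr (by
        have : v * y * (T l - T j) - v * y * x = -(v * y) * (x - (T l - T j)) := by ring
        rw [this]
        exact hd.mul_left _)
      rw [e1, hvx] at hl
      exact lt_irrefl _ hl
    · exfalso
      rw [sub_self, mul_zero, Int.zero_emod] at hl
      linarith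
    · have e1 : (v * w) % (N : ℤ) = (v * y * (T l - T j)) % N := by
        refine emod_congr ?_
        have h5 : (N : ℤ) ∣ y * (T l - T j) - w := Int.dvd_self_sub_emod
        have h6 : v * w - v * y * (T l - T j) = -v * (y * (T l - T j) - w) := by ring
        rw [h6]
        exact h5.mul_left _
      rw [e1]
      exact hl
  have hw2 : 2 ≤ w := by
    have := H 1 one_pos (by omega)
    rw [one_mul, hw, Int.emod_emod] at this
    omega
  have hoddz : Odd (N : ℤ) := by exact_mod_cast hodd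
  have hdw : (N : ℤ) ∣ y * (T k - T j) - w := Int.dvd_self_sub_emod
  obtain ⟨d, hd'⟩ := hdw
  rcases two_or_neg hoddz hw2 hw1 H with h | h
  · left
    rw [h] at hd'
    exact ⟨d * x + s * (T k - T j), by linear_combination x * hd' - (T k - T j) * hys⟩
  · right
    rw [h] at hd'
    exact ⟨(d + 1) * x + s * (T k - T j), by linear_combination x * hd' - (T k - T j) * hys⟩

end Pool.Agent.R340.P3
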