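import Pool.Agent.R340.P3.GapAP

set_option autoImplicit false

/-!
Three sets of three residues modulo a prime number satisfying the inequalities for line
subbundles, one sum being zero: they are translates of each other.
-/

open Finset

namespace Pool.Agent.R340.P3

open Pool.Agent.R340.PC (sw sw_congr)

/-- The three sets are translates of one and the same set of three distinct residues. -/
def Same (N : ℕ) (e : Fin 3 → Fin 3 → ℤ) : Prop :=
  ∃ T : Fin 3 → ℤ, (∀ l l', l ≠ l' → ¬ (N : ℤ) ∣ T l - T l') ∧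
    ∀ i, ∃ σ : Equiv.Perm (Fin 3), ∃ t : ℤ, ∀ l, (N : ℤ) ∣ e i (σ l) - T l - t

lemma Same.perm {N : ℕ} {e : Fin 3 → Fin 3 → ℤ} (π : Equiv.Perm (Fin 3))
    (τ : Fin 3 → Equiv.Perm (Fin 3)) (s : Fin 3 → ℤ) {e' : Fin 3 → Fin 3 → ℤ}
    (he : ∀ i l, (N : ℤ) ∣ e' i l - (e (π i) (τ i l) - s i)) (h : Same N e') : Same N e := by
  obtain ⟨T, hT, h⟩ := h
  refine ⟨T, hT, fun i => ?_⟩
  obtain ⟨σ, t, ht⟩ := h (π.symm i)
  refine ⟨σ.trans (τ (π.symm i)), t + s (π.symm i), fun l => ?_⟩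
  obtain ⟨a, ha⟩ := ht l
  obtain ⟨b, hb⟩ := he (π.symm i) (σ l)
  rw [Equiv.apply_symm_apply] at hb
  refine ⟨a - b, ?_⟩
  rw [Equiv.trans_apply]
  linear_combination ha - hb

lemma sw_neg_add {N : ℕ} (hN : 0 < N) (y z : ℤ) (h : (N : ℤ) ∣ y + z) : sw N y + sw N z = 0 := by
  have h1 : sw N z = sw N (-y) := sw_congr (by
    have : z - -y = y + z := by ring
    rwa [this])
  rw [h1]
  unfold sw
  have h2 := emod_neg_add hN y
  by_cases h3 : (N : ℤ) ∣ y
  · rw [if_pos h3, if_pos ((dvd_neg).2 h3), add_zero]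
  · rw [if_neg h3] at h2
    rw [if_neg h3, if_neg (fun h => h3 ((dvd_neg).1 h))]
    linarith

section pairs

variable {N : ℕ} {a b c d e f : ℤ}

lemma pair2 (hp : N.Prime) (hodd : Odd N) (ha : ¬ (N : ℤ) ∣ a) (hb : ¬ (N : ℤ) ∣ b)
    (h : ∀ u : ℤ, IsCoprime u (N : ℤ) → sw N (u * a) + sw N (u * b) = 0) : (N : ℤ) ∣ a + b := by
  obtain ⟨i, hi, hd⟩ := pair_any hp hodd ![a, b] (by
    intro i
    fin_cases i
    · exact ha
    · exact hb) (by
    intro u hu
    simpa [Fin.sum_univ_two] using h u hu) 0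
  fin_cases i
  · exact absurd rfl hi
  · simpa [add_comm] using hd

lemma pair4 (hp : N.Prime) (hodd : Odd N) (ha : ¬ (N : ℤ) ∣ a) (hb : ¬ (N : ℤ) ∣ b)
    (hc : ¬ (N : ℤ) ∣ c) (hd : ¬ (N : ℤ) ∣ d)
    (h : ∀ u : ℤ, IsCoprime u (N : ℤ) →
      sw N (u * a) + sw N (u * b) + sw N (u * c) + sw N (u * d) = 0) :
    ((N : ℤ) ∣ a + b ∧ (N : ℤ) ∣ c + d) ∨ ((N : ℤ) ∣ a + c ∧ (N : ℤ) ∣ b + d) ∨
      ((N : ℤ) ∣ a + d ∧ (N : ℤ) ∣ b + c) := by
  obtain ⟨i, hi, hdv⟩ := pair_any hp hodd ![a, b, c, d] (by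
    intro i
    fin_cases i
    · exact ha
    · exact hb
    · exact hc
    · exact hd) (by
    intro u hu
    simpa [Fin.sum_univ_four] using h u hu) 0
  have key : ∀ {x y : ℤ}, (N : ℤ) ∣ x + y → ∀ u : ℤ, sw N (u * x) + sw N (u * y) = 0 :=
    fun {x y} hxy u => sw_neg_add hp.pos _ _ (by rw [← mul_add]; exact hxy.mul_left u)
  fin_cases i
  · exact absurd rfl hi
  · have h1 : (N : ℤ) ∣ a + b := by simpa [add_comm] using hdv
    refine Or.inl ⟨h1, pair2 hp hodd hc hd fun u hu => ?_⟩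
    linarith [h u hu, key h1 u]
  · have h1 : (N : ℤ) ∣ a + c := by simpa [add_comm] using hdv
    refine Or.inr (Or.inl ⟨h1, pair2 hp hodd hb hd fun u hu => ?_⟩)
    linarith [h u hu, key h1 u]
  · have h1 : (N : ℤ) ∣ a + d := by simpa [add_comm] using hdv
    refine Or.inr (Or.inr ⟨h1, pair2 hp hodd hb hc fun u hu => ?_⟩)
    linarith [h u hu, key h1 u]

lemma pair6 (hp : N.Prime) (hodd : Odd N) (ha : ¬ (N : ℤ) ∣ a) (hb : ¬ (N : ℤ) ∣ b)
    (hc : ¬ (N : ℤ) ∣ c) (hd : ¬ (N : ℤ) ∣ d) (he : ¬ (N : ℤ) ∣ e) (hf : ¬ (N : ℤ) ∣ f)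
    (h : ∀ u : ℤ, IsCoprime u (N : ℤ) →
      sw N (u * a) + sw N (u * b) + sw N (u * c) + sw N (u * d) + sw N (u * e) + sw N (u * f) = 0) :
    (N : ℤ) ∣ a + b ∨ (N : ℤ) ∣ a + c ∨ (N : ℤ) ∣ a + d ∨ (N : ℤ) ∣ a + e ∨ (N : ℤ) ∣ a + f := by
  obtain ⟨i, hi, hdv⟩ := pair_any hp hodd ![a, b, c, d, e, f] (by
    intro i
    fin_cases i
    · exact ha
    · exact hb
    · exact hc
    · exact hd
    · exact he
    · exact hf) (by
    intro u hu
    simpa [Fin.sum_univ_six] using h u hu) 0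
  fin_cases i
  · exact absurd rfl hi
  · left; simpa [add_comm] using hdv
  · right; left; simpa [add_comm] using hdv
  · right; right; left; simpa [add_comm] using hdv
  · right; right; right; left; simpa [add_comm] using hdv
  · right; right; right; right; simpa [add_comm] using hdv

end pairs

section types

variable {N : ℕ}

lemma SG.sixcongr {a1 a2 b1 b2 c1 c2 a1' a2' b1' b2' c1' c2' : ℤ}
    (h : SG N (six a1 a2 b1 b2 c1 c2)) (h1 : (N : ℤ) ∣ a1 - a1') (h2 : (N : ℤ) ∣ a2 - a2')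
    (h3 : (N : ℤ) ∣ b1 - b1') (h4 : (N : ℤ) ∣ b2 - b2') (h5 : (N : ℤ) ∣ c1 - c1')
    (h6 : (N : ℤ) ∣ c2 - c2') : SG N (six a1' a2' b1' b2' c1' c2') := by
  refine h.congr fun i l => ?_
  fin_cases i <;> fin_cases l <;> simp [six, h1, h2, h3, h4, h5, h6]

lemma emod_neg_eq (hN : 0 < N) {z : ℤ} (h : ¬ (N : ℤ) ∣ z) : (-z) % (N : ℤ) = N - z % N := by
  have := emod_neg_add hN z
  rw [if_neg h] at this
  linarith

lemma nd_mul {u z : ℤ} (hu : IsCoprime u (N : ℤ)) (hz : ¬ (N : ℤ) ∣ z) : ¬ (N : ℤ) ∣ u * z :=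
  fun h => hz (hu.symm.dvd_of_dvd_mul_left h)

/-- The progression. -/
def Prog (N : ℕ) (x : ℤ) (f : Fin 3 → ℤ) : Prop :=
  ∃ σ : Equiv.Perm (Fin 3), ∃ t : ℤ, ∀ l, (N : ℤ) ∣ f (σ l) - ![0, x, -x] l - t

lemma same_of_prog (hp : N.Prime) (hodd : Odd N) {x : ℤ} (hx : ¬ (N : ℤ) ∣ x)
    {e : Fin 3 → Fin 3 → ℤ} (h : ∀ i, Prog N x (e i)) : Same N e := by
  have hN2 : IsCoprime (N : ℤ) 2 := by
    have := (Nat.coprime_two_right).2 hodd
    exact_mod_cast this.isCoprime
  have hxx : ¬ (N : ℤ) ∣ x + x := by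
    intro h
    rw [← two_mul] at h
    exact hx (hN2.dvd_of_dvd_mul_left h)
  have hxx' : ¬ (N : ℤ) ∣ -x - x := by
    intro h
    apply hxx
    have : x + x = -(-x - x) := by ring
    rw [this]
    exact (dvd_neg).2 h
  refine ⟨![0, x, -x], ?_, h⟩
  intro l l' hl
  fin_cases l <;> fin_cases l' <;>
    simp_all [sub_eq_add_neg]

lemma prog_zero (x : ℤ) (f : Fin 3 → ℤ) (h0 : (N : ℤ) ∣ f 0)
    (h : ((N : ℤ) ∣ f 1 - x ∧ (N : ℤ) ∣ f 2 + x) ∨ ((N : ℤ) ∣ f 1 + x ∧ (N : ℤ) ∣ f 2 - x)) :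
    Prog N x f := by
  rcases h with ⟨h1, h2⟩ | ⟨h1, h2⟩
  · refine ⟨Equiv.refl _, 0, fun l => ?_⟩
    fin_cases l
    · simpa using h0
    · simpa using h1
    · simpa using h2
  · refine ⟨Equiv.swap 1 2, 0, fun l => ?_⟩
    fin_cases l
    · simpa [Equiv.swap_apply_def] using h0
    · simpa [Equiv.swap_apply_def] using h2
    · simpa [Equiv.swap_apply_def] using h1

/-- The minimum and the maximum of a symmetric pair. -/
lemma min_sym (hN : 0 < N) {z : ℤ} (hz : ¬ (N : ℤ) ∣ z) :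
    min (z % N) ((-z) % N) = dst N z ∧ max (z % N) ((-z) % N) = N - dst N z := by
  rw [emod_neg_eq hN hz]
  unfold dst
  refine ⟨rfl, ?_⟩
  rcases le_total (z % (N : ℤ)) (N - z % N) with h | h
  · rw [min_eq_left h, max_eq_right h]
  · rw [min_eq_right h, max_eq_left h]; ring

/-- Equal distances. -/
lemma dst_eq (hN : 0 < N) {y z : ℤ} (h : dst N y = dst N z) : (N : ℤ) ∣ y - z ∨ (N : ℤ) ∣ y + z := by
  obtain ⟨-, -, h1⟩ := dst_spec hN y
  obtain ⟨-, -, h2⟩ := dst_spec hN z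
  rw [h] at h1
  rcases h1 with ⟨k, hk⟩ | ⟨k, hk⟩ <;> rcases h2 with ⟨l, hl⟩ | ⟨l, hl⟩
  · left; exact ⟨k - l, by linear_combination hk - hl⟩
  · right; exact ⟨k + l, by linear_combination hk + hl⟩
  · right; exact ⟨k + l, by linear_combination hk + hl⟩
  · left; exact ⟨k - l, by linear_combination hk - hl⟩

/-- Three symmetric sets. -/
theorem typeI (hp : N.Prime) (hodd : Odd N) {x y z : ℤ}
    (h : SG N (six x (-x) y (-y) z (-z))) : Same N (six x (-x) y (-y) z (-z)) := by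
  have hN := hp.pos
  have hNz : (0 : ℤ) < N := by exact_mod_cast hN
  have h3 : 3 ≤ N := by
    have := hp.two_le
    obtain ⟨n, hn⟩ := hodd
    omega
  obtain ⟨-, hx, -, hy, -, hz, -⟩ := h.sum_eq hN 1 isCoprime_one_left
  simp only [one_mul] at hx hy hz
  have hpr := Nat.prime_iff_prime_int.1 hp
  have hcop : ∀ {z : ℤ}, ¬ (N : ℤ) ∣ z → IsCoprime z (N : ℤ) := fun {z} hz =>
    (hpr.coprime_iff_not_dvd.2 hz).symm
  -- the triangle inequalities
  have tri : ∀ {x y z : ℤ}, SG N (six x (-x) y (-y) z (-z)) → ¬ (N : ℤ) ∣ x → ¬ (N : ℤ) ∣ y →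
      ¬ (N : ℤ) ∣ z → ∀ u : ℤ, IsCoprime u (N : ℤ) →
      dst N (u * z) < dst N (u * x) + dst N (u * y) := by
    intro x y z h hx hy hz u hu
    have h1 := h.C2 hN u hu
    simp only [mul_neg] at h1
    rw [(min_sym hN (nd_mul hu hx)).2, (min_sym hN (nd_mul hu hy)).2,
      (min_sym hN (nd_mul hu hz)).1] at h1
    linarith
  have inv : ∀ {x : ℤ}, ¬ (N : ℤ) ∣ x → ∃ u : ℤ, IsCoprime u (N : ℤ) ∧ dst N (u * x) = 1 := by
    intro x hx
    obtain ⟨y, s, hys⟩ := hcop hx
    refine ⟨y, ⟨x, s, by linear_combination hys⟩, ?_⟩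
    have e1 : (y * x) % (N : ℤ) = 1 % N := emod_congr ⟨-s, by linear_combination hys⟩
    have e2 : (1 : ℤ) % (N : ℤ) = 1 := Int.emod_eq_of_lt (by norm_num) (by omega)
    rw [e2] at e1
    rw [dst_mod e1]
    exact min_eq_left (by omega)
  have hac := h.swap_bc.swap_ab
  have t1 := tri h hx hy hz
  have t2 := tri h.swap_bc hx hz hy
  have t3 := tri h.swap_ab.swap_bc.swap_ab hz hy hx
  -- first comparison
  have cmp : ∀ u : ℤ, IsCoprime u (N : ℤ) → ∀ {y z : ℤ}, dst N (u * y) = dst N (u * z) →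
      (N : ℤ) ∣ y - z ∨ (N : ℤ) ∣ y + z := by
    intro u hu y z h
    rcases dst_eq hN h with h | h
    · left
      rw [← mul_sub] at h
      exact hu.symm.dvd_of_dvd_mul_left h
    · right
      rw [← mul_add] at h
      exact hu.symm.dvd_of_dvd_mul_left h
  obtain ⟨u, hu, hu1⟩ := inv hx
  have c1 := cmp u hu (y := y) (z := z) (by
    have a1 := t1 u hu
    have a2 := t2 u hu
    rw [hu1] at a1 a2
    omega)
  obtain ⟨v, hv, hv1⟩ := inv hz
  have c2 := cmp v hv (y := y) (z := x) (by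
    have a1 := t3 v hv
    have a2 := t2 v hv
    rw [hv1] at a1 a2
    omega)
  refine same_of_prog hp hodd hy fun i => ?_
  fin_cases i
  · refine prog_zero _ _ (by simp [six]) ?_
    rcases c2 with ⟨k, hk⟩ | ⟨k, hk⟩
    · left
      exact ⟨⟨-k, by simp [six]; linear_combination -hk⟩, ⟨k, by simp [six]; linear_combination hk⟩⟩
    · right
      exact ⟨⟨k, by simp [six]; linear_combination hk⟩, ⟨-k, by simp [six]; linear_combination -hk⟩⟩
  · refine prog_zero _ _ (by simp [six]) (Or.inl ⟨by simp [six], by simp [six]⟩)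
  · refine prog_zero _ _ (by simp [six]) ?_
    rcases c1 with ⟨k, hk⟩ | ⟨k, hk⟩
    · left
      exact ⟨⟨-k, by simp [six]; linear_combination -hk⟩, ⟨k, by simp [six]; linear_combination hk⟩⟩
    · right
      exact ⟨⟨k, by simp [six]; linear_combination hk⟩, ⟨-k, by simp [six]; linear_combination -hk⟩⟩

/-- The set opposite to a progression is a progression. -/
lemma Prog.neg {x : ℤ} {f g : Fin 3 → ℤ} (h : Prog N x f) (hg : ∀ l, (N : ℤ) ∣ g l + f l) :
    Prog N x g := by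
  obtain ⟨σ, t, ht⟩ := h
  refine ⟨(Equiv.swap 1 2).trans σ, -t, fun l => ?_⟩
  obtain ⟨a, ha⟩ := ht (Equiv.swap 1 2 l)
  obtain ⟨b, hb⟩ := hg (σ (Equiv.swap 1 2 l))
  rw [Equiv.trans_apply]
  refine ⟨b - a, ?_⟩
  have hv : ![0, x, -x] (Equiv.swap 1 2 l) = -![0, x, -x] l := by
    fin_cases l <;> simp [Equiv.swap_apply_def]
  rw [hv] at ha
  linear_combination hb - ha

lemma Prog.of_ap {x : ℤ} {T : Fin 3 → ℤ} {i j k : Fin 3} (hij : i ≠ j) (hki : k ≠ i) (hkj : k ≠ j)
    (h1 : (N : ℤ) ∣ x - (T i - T j))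
    (h2 : (N : ℤ) ∣ (T k - T j) - 2 * x ∨ (N : ℤ) ∣ (T k - T j) + x) : Prog N x T := by
  have mk : ∀ {i j k : Fin 3}, i ≠ j → k ≠ i → k ≠ j → ∃ σ : Equiv.Perm (Fin 3),
      σ 0 = i ∧ σ 1 = j ∧ σ 2 = k := by decide
  rcases h2 with h2 | h2
  · -- centre `i`
    obtain ⟨σ, e0, e1, e2⟩ := mk hki.symm hij.symm hkj.symm
    refine ⟨σ, T i, fun l => ?_⟩
    obtain ⟨a, ha⟩ := h1
    obtain ⟨b, hb⟩ := h2
    fin_cases l
    · simp [e0]
    · refine ⟨b + a, ?_⟩
      simp only [Fin.mk_one, e1, Matrix.cons_val_one]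
      simp only [Matrix.cons_val_zero]
      linear_combination hb + ha
    · refine ⟨a, ?_⟩
      simp only [Fin.reduceFinMk, e2, Matrix.cons_val]
      linear_combination ha
  · -- centre `j`
    obtain ⟨σ, e0, e1, e2⟩ := mk hij.symm hkj hki
    refine ⟨σ, T j, fun l => ?_⟩
    obtain ⟨a, ha⟩ := h1
    obtain ⟨b, hb⟩ := h2
    fin_cases l
    · simp [e0]
    · refine ⟨-a, ?_⟩
      simp only [Fin.mk_one, e1, Matrix.cons_val_one]
      simp only [Matrix.cons_val_zero]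
      linear_combination -ha
    · refine ⟨b, ?_⟩
      simp only [Fin.reduceFinMk, e2, Matrix.cons_val]
      linear_combination hb

/-- One symmetric set, the two others being opposite. -/
theorem typeII (hp : N.Prime) (hodd : Odd N) {x y z : ℤ}
    (h : SG N (six x (-x) y z (-y) (-z))) : Same N (six x (-x) y z (-y) (-z)) := by
  have hN := hp.pos
  have hNz : (0 : ℤ) < N := by exact_mod_cast hN
  obtain ⟨-, hx, -, hy, hz, -, -⟩ := h.sum_eq hN 1 isCoprime_one_left
  simp only [one_mul] at hx hy hz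
  have key : ∀ u : ℤ, IsCoprime u (N : ℤ) →
      dst N (u * x) + min ((u * y) % N) ((u * z) % N) < N ∧
      dst N (u * x) < max ((u * y) % N) ((u * z) % N) ∧
      dst N (u * x) + max ((u * y) % N) ((u * z) % N) - min ((u * y) % N) ((u * z) % N) < N ∧
      (u * y) % N ≠ (u * z) % N := by
    intro u hu
    have a1 := h.C1 hN u hu
    have a2 := h.swap_bc.C1 hN u hu
    have a3 := h.swap_ab.swap_bc.C2 hN u hu
    have a4 := h.swap_ab.swap_bc.C1 hN u hu
    simp only [mul_neg] at a1 a2 a3 a4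
    rw [(min_sym hN (nd_mul hu hx)).1] at a1 a2 a3
    rw [emod_neg_eq hN (nd_mul hu hy), emod_neg_eq hN (nd_mul hu hz)] at a2 a3 a4
    refine ⟨a1, ?_, ?_, ?_⟩
    · omega
    · omega
    · intro h
      omega
  have hyz : ¬ (N : ℤ) ∣ y - z := by
    intro hd
    have := (key 1 isCoprime_one_left).2.2.2
    simp only [one_mul] at this
    exact this (emod_congr hd)
  have hzy : ¬ (N : ℤ) ∣ z - y := by
    intro hd
    apply hyz
    have := (dvd_neg).2 hd
    rwa [neg_sub] at this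
  have hT : ∀ i j, i ≠ j → ¬ (N : ℤ) ∣ ![0, y, z] i - ![0, y, z] j := by
    intro i j hij
    fin_cases i <;> fin_cases j <;> simp_all
  have hg : Gap N x ![0, y, z] := by
    intro u hu i
    obtain ⟨k1, k2, k3, k4⟩ := key u hu
    have y0 := Int.emod_nonneg (u * y) hNz.ne'
    have z0 := Int.emod_nonneg (u * z) hNz.ne'
    have y1 := Int.emod_lt_of_pos (u * y) hNz
    have z1 := Int.emod_lt_of_pos (u * z) hNz
    fin_cases i
    · rcases le_total ((u * y) % (N : ℤ)) ((u * z) % N) with hle | hle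
      · refine ⟨2, ?_⟩
        simp only [Fin.zero_eta, Matrix.cons_val, Matrix.cons_val_zero, sub_zero]
        rwa [max_eq_right hle] at k2
      · refine ⟨1, ?_⟩
        simp only [Fin.zero_eta, Matrix.cons_val_one, Matrix.cons_val_zero, sub_zero]
        rwa [max_eq_left hle] at k2
    · rcases le_total ((u * y) % (N : ℤ)) ((u * z) % N) with hle | hle
      · refine ⟨0, ?_⟩
        simp only [Fin.mk_one, Matrix.cons_val_one, Matrix.cons_val_zero, zero_sub, mul_neg]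
        rw [emod_neg_eq hN (nd_mul hu hy)]
        rw [min_eq_left hle] at k1
        linarith
      · refine ⟨2, ?_⟩
        simp only [Fin.mk_one, Matrix.cons_val_one, Matrix.cons_val_zero, Matrix.cons_val]
        rw [max_eq_left hle, min_eq_right hle] at k3
        have e1 : (u * (z - y)) % (N : ℤ) = (u * z) % N - (u * y) % N + N := by
          have e2 : (u * (z - y)) % (N : ℤ) = ((u * z) % N - (u * y) % N + N) % N := by
            refine emod_congr ?_
            obtain ⟨k, hk⟩ : (N : ℤ) ∣ u * z - (u * z) % N := Int.dvd_self_sub_emod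
            obtain ⟨l, hl⟩ : (N : ℤ) ∣ u * y - (u * y) % N := Int.dvd_self_sub_emod
            exact ⟨k - l - 1, by linear_combination hk - hl⟩
          rw [e2]
          exact Int.emod_eq_of_lt (by omega) (by omega)
        rw [e1]
        linarith
    · rcases le_total ((u * y) % (N : ℤ)) ((u * z) % N) with hle | hle
      · refine ⟨1, ?_⟩
        simp only [Fin.reduceFinMk, Matrix.cons_val_one, Matrix.cons_val_zero, Matrix.cons_val]
        rw [max_eq_right hle, min_eq_left hle] at k3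
        have e1 : (u * (y - z)) % (N : ℤ) = (u * y) % N - (u * z) % N + N := by
          have e2 : (u * (y - z)) % (N : ℤ) = ((u * y) % N - (u * z) % N + N) % N := by
            refine emod_congr ?_
            obtain ⟨k, hk⟩ : (N : ℤ) ∣ u * z - (u * z) % N := Int.dvd_self_sub_emod
            obtain ⟨l, hl⟩ : (N : ℤ) ∣ u * y - (u * y) % N := Int.dvd_self_sub_emod
            exact ⟨l - k - 1, by linear_combination hl - hk⟩
          rw [e2]
          exact Int.emod_eq_of_lt (by omega) (by omega)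
        rw [e1]
        linarith
      · refine ⟨0, ?_⟩
        simp only [Fin.reduceFinMk, Matrix.cons_val, Matrix.cons_val_zero, zero_sub, mul_neg]
        rw [emod_neg_eq hN (nd_mul hu hz)]
        rw [min_eq_right hle] at k1
        linarith
  obtain ⟨i, j, k, hij, hki, hkj, g1, g2⟩ := gap_ap hp hodd hx hT hg
  have hprog := Prog.of_ap hij hki hkj g1 g2
  refine same_of_prog hp hodd hx fun i => ?_
  fin_cases i
  · exact prog_zero _ _ (by simp [six]) (Or.inl ⟨by simp [six], by simp [six]⟩)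
  · exact hprog
  · refine hprog.neg fun l => ?_
    fin_cases l <;> simp [six]

end types

end Pool.Agent.R340.P3
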