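import Pool.Agent.R340.P3.Base

set_option autoImplicit false

/-!
Vanishing sums of sawtooth functions modulo a prime number: every number has a partner.
-/

open Finset

namespace Pool.Agent.R340.P3

open Pool.Agent.R340.PC (sw SS_unit odd_orth saw_cast)
open Pool.Agent.H916R2 (saw SS exists_SS_ne_zero saw_zero)

/-- **Partners.** -/
theorem pair_any {ι : Type*} [Fintype ι] {N : ℕ} (hp : N.Prime) (hodd : Odd N) (x : ι → ℤ)
    (hx : ∀ i, ¬ (N : ℤ) ∣ x i)
    (hT : ∀ c : ℤ, IsCoprime c (N : ℤ) → ∑ i, sw N (c * x i) = 0) (j : ι) :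
    ∃ i, i ≠ j ∧ (N : ℤ) ∣ x i + x j := by
  classical
  have : NeZero N := ⟨hp.ne_zero⟩
  have : Fact N.Prime := ⟨hp⟩
  have hcop : ∀ i, IsCoprime (x i) (N : ℤ) := fun i =>
    ((Nat.prime_iff_prime_int.1 hp).coprime_iff_not_dvd.2 (hx i)).symm
  have hunit : ∀ i, ∃ u : (ZMod N)ˣ, (u : ZMod N) = ((x i : ℤ) : ZMod N) := fun i =>
    (ZMod.coe_int_isUnit_iff_isCoprime (x i) N).2 (hcop i).symm
  choose U hU using hunit
  have step1 : ∀ u : (ZMod N)ˣ, ∑ i, saw ((u : ZMod N) * ((U i : (ZMod N)ˣ) : ZMod N)) = 0 := by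
    intro u
    set c : ℤ := ((u : ZMod N).val : ℤ) with hc
    have hcN : ((c : ℤ) : ZMod N) = u := by rw [hc]; simp
    have hcc : IsCoprime c (N : ℤ) := by
      refine ((ZMod.coe_int_isUnit_iff_isCoprime c N).1 ?_).symm
      rw [hcN]
      exact u.isUnit
    rw [← hT c hcc]
    refine sum_congr rfl fun i _ => ?_
    rw [hU i, ← hcN, ← Int.cast_mul, saw_cast]
  have step2 : ∀ χ : DirichletCharacter ℂ N, χ (-1) = -1 →
      ∑ i, χ (((U i)⁻¹ : (ZMod N)ˣ) : ZMod N) = 0 := by
    intro χ hχ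
    have h1 : (∑ i, χ (((U i)⁻¹ : (ZMod N)ˣ) : ZMod N)) * SS χ 1 = 0 := by
      have h2 : ∑ u : (ZMod N)ˣ, χ u * ((∑ i, saw ((u : ZMod N) * ((U i : (ZMod N)ˣ) : ZMod N)) : ℤ) : ℂ) = 0 := by
        refine sum_eq_zero fun u _ => ?_
        rw [step1 u]
        simp
      rw [← h2, sum_mul]
      have h3 : ∀ u : (ZMod N)ˣ, χ u * ((∑ i, saw ((u : ZMod N) * ((U i : (ZMod N)ˣ) : ZMod N)) : ℤ) : ℂ) =
          ∑ i, χ u * (saw ((u : ZMod N) * ((U i : (ZMod N)ˣ) : ZMod N)) : ℂ) := by
        intro u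
        push_cast
        rw [mul_sum]
      rw [sum_congr rfl fun u _ => h3 u, sum_comm]
      refine sum_congr rfl fun i _ => ?_
      rw [← SS_unit χ (U i) 1]
      unfold SS
      refine sum_congr rfl fun u _ => ?_
      rw [mul_one]
    refine (mul_eq_zero.1 h1).resolve_right ?_
    obtain ⟨a, ha⟩ := exists_SS_ne_zero χ hχ
    have ha0 : a ≠ 0 := by
      rintro rfl
      apply ha
      unfold SS
      refine sum_eq_zero fun t _ => ?_
      rw [mul_zero, saw_zero]
      simp
    obtain ⟨v, hv⟩ := (isUnit_iff_ne_zero.2 ha0)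
    intro h
    apply ha
    have h5 := SS_unit χ v 1
    rw [mul_one, h, mul_zero, hv] at h5
    exact h5
  have step3 : ∑ i, ((N.totient : ℂ) * ((if ((U i : (ZMod N)ˣ) : ZMod N) = U j then 1 else 0) -
        (if ((U i : (ZMod N)ˣ) : ZMod N) = -(U j) then 1 else 0))) = 0 := by
    have h1 : ∑ χ : DirichletCharacter ℂ N, (1 - χ (-1)) * (χ (U j : ZMod N) *
        ∑ i, χ (((U i)⁻¹ : (ZMod N)ˣ) : ZMod N)) = 0 := by
      refine sum_eq_zero fun χ _ => ?_
      have h2 : χ (-1) = 1 ∨ χ (-1) = -1 := χ.even_or_odd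
      rcases h2 with h2 | h2
      · rw [h2, sub_self, zero_mul]
      · rw [step2 χ h2, mul_zero, mul_zero]
    refine Eq.trans ?_ h1
    have h3 : ∀ χ : DirichletCharacter ℂ N, (1 - χ (-1)) * (χ (U j : ZMod N) *
        ∑ i, χ (((U i)⁻¹ : (ZMod N)ˣ) : ZMod N)) =
          ∑ i, (1 - χ (-1)) * (χ (((U i)⁻¹ : (ZMod N)ˣ) : ZMod N) *
            χ (U j : ZMod N)) := by
      intro χ
      rw [mul_sum, mul_sum]
      refine sum_congr rfl fun i _ => ?_
      ring
    rw [sum_congr rfl fun χ _ => h3 χ, sum_comm]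
    refine sum_congr rfl fun i _ => ?_
    exact (odd_orth (U i) (U j)).symm
  have hφ : (N.totient : ℂ) ≠ 0 := by
    exact_mod_cast (Nat.totient_pos.2 (NeZero.pos N)).ne'
  have heq : ∀ y z : ℤ, ((y : ℤ) : ZMod N) = ((z : ℤ) : ZMod N) ↔ (N : ℤ) ∣ y - z := by
    intro y z
    rw [← sub_eq_zero, ← Int.cast_sub, ZMod.intCast_zmod_eq_zero_iff_dvd]
  have h1 : ∀ i ∈ (univ : Finset ι), ((N.totient : ℂ) * ((if ((U i : (ZMod N)ˣ) : ZMod N) = U j then 1 else 0) -
      (if ((U i : (ZMod N)ˣ) : ZMod N) = -(U j) then 1 else 0))) =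
      (N.totient : ℂ) * (((if (N : ℤ) ∣ x i - x j then 1 else 0) - (if (N : ℤ) ∣ x i + x j then 1 else 0) : ℤ) : ℂ) := by
    intro i hi
    rw [hU, hU, ← Int.cast_neg]
    simp only [heq, sub_neg_eq_add]
    push_cast
    rfl
  rw [sum_congr rfl h1, ← mul_sum, ← Int.cast_sum] at step3
  have h3 := (mul_eq_zero.1 step3).resolve_left hφ
  have h4 : ∑ i, ((if (N : ℤ) ∣ x i - x j then (1 : ℤ) else 0) - (if (N : ℤ) ∣ x i + x j then 1 else 0)) = 0 := by
    exact_mod_cast h3
  rw [sum_sub_distrib, sum_boole, sum_boole] at h4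
  have h5 : 0 < (univ.filter (fun i => (N : ℤ) ∣ x i - x j)).card :=
    card_pos.2 ⟨j, mem_filter.2 ⟨mem_univ _, by simp⟩⟩
  have h6 : 0 < (univ.filter (fun i => (N : ℤ) ∣ x i + x j)).card := by
    have h7 : (0 : ℤ) < ((univ.filter (fun i => (N : ℤ) ∣ x i - x j)).card : ℤ) := by exact_mod_cast h5
    have h8 : (0 : ℤ) < ((univ.filter (fun i => (N : ℤ) ∣ x i + x j)).card : ℤ) := by linarith
    exact_mod_cast h8
  obtain ⟨i, hi⟩ := card_pos.1 h6
  have hi' := (mem_filter.1 hi).2
  refine ⟨i, ?_, hi'⟩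
  rintro rfl
  apply hx i
  have h2 : (N : ℤ) ∣ 2 * x i := by rw [two_mul]; exact hi'
  have h3 : IsCoprime (N : ℤ) 2 := by
    have := (Nat.coprime_two_right).2 hodd
    exact_mod_cast this.isCoprime
  exact h3.dvd_of_dvd_mul_left h2

/-- An elementary lemma: the multiples of `w` by the numbers up to `N / 2` stay above the numbers
only for `w = 2` and `w = -1`. -/
theorem two_or_neg {N w : ℤ} (hN : Odd N) (h2 : 2 ≤ w) (hw : w < N)
    (H : ∀ v : ℤ, 0 < v → 2 * v < N → v < (v * w) % N) : w = 2 ∨ w = N - 1 := by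
  obtain ⟨n, hn⟩ := hN
  -- the main case
  have main : ∀ w : ℤ, 2 ≤ w → 2 * w ≤ N + 1 → (∀ v : ℤ, 0 < v → 2 * v < N → v < (v * w) % N) →
      w = 2 := by
    intro w h2 hw2 H
    -- `w` is even
    have hev : Even w := by
      rw [← Int.not_odd_iff_even]
      rintro ⟨k, hk⟩
      have h1 := H n (by omega) (by omega)
      have h3 : (n * w) % N = n - k := by
        have : n * w = (n - k) + N * k := by rw [hk, hn]; ring
        rw [this, Int.add_mul_emod_self_left]
        exact Int.emod_eq_of_lt (by omega) (by omega)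
      omega
    obtain ⟨h, hh⟩ := hev
    have hw' : w = 2 * h := by omega
    by_contra hne
    have hh2 : 2 ≤ h := by omega
    -- a general multiplier
    have key : ∀ k : ℤ, 0 ≤ k → N ≤ (2 * k + 1) * (2 * h - 1) → (2 * k + 1) * h < N → False := by
      intro k hk0 hk1 hk2
      have hkn : k < n := by nlinarith
      have h1 := H (n - k) (by omega) (by omega)
      have h3 : ((n - k) * w) % N = N - (2 * k + 1) * h := by
        have : (n - k) * w = (N - (2 * k + 1) * h) + N * (h - 1) := by rw [hw', hn]; ring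
        rw [this, Int.add_mul_emod_self_left]
        exact Int.emod_eq_of_lt (by omega) (by nlinarith)
      rw [h3] at h1
      nlinarith
    by_cases hc : N ≤ 3 * (2 * h - 1)
    · exact key 1 (by norm_num) (by linarith) (by omega)
    · push Not at hc
      by_cases hc2 : h = 2 ∧ N = 11
      · obtain ⟨rfl, h11⟩ := hc2
        exact key 2 (by norm_num) (by omega) (by omega)
      · -- the general case
        have hbig : 2 * h * (2 * h - 1) ≤ N * (h - 1) := by
          rcases eq_or_lt_of_le hh2 with h3 | h3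
          · rw [← h3] at hc ⊢
            have : N ≠ 11 := fun h' => hc2 ⟨h3.symm, h'⟩
            omega
          · nlinarith
        set d := 2 * h - 1 with hd
        have hd0 : 0 < d := by omega
        -- `k = ⌈(N / d - 1) / 2⌉`
        set k := (N + d - 1) / (2 * d) with hk
        have h4 : (N + d - 1) = 2 * d * k + (N + d - 1) % (2 * d) := (Int.mul_ediv_add_emod _ _).symm
        have h5 := Int.emod_nonneg (N + d - 1) (show 2 * d ≠ 0 by omega)
        have h6 := Int.emod_lt_of_pos (N + d - 1) (show 0 < 2 * d by omega)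
        generalize (N + d - 1) % (2 * d) = ρ at h4 h5 h6
        have hk0 : 0 ≤ k := Int.ediv_nonneg (by omega) (by omega)
        refine key k hk0 ?_ ?_
        · -- `(2 k + 1) d ≥ N`
          nlinarith
        · have h7 : (2 * k + 1) * d ≤ N + 2 * d - 1 := by nlinarith
          have h8 : (2 * k + 1) * h * d < N * d := by
            have h9 : (2 * k + 1) * h * d ≤ (N + 2 * d - 1) * h := by nlinarith
            have h10 : (N + 2 * d - 1) * h < N * d := by
              rw [hd] at hbig ⊢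
              nlinarith
            linarith
          exact lt_of_mul_lt_mul_right h8 hd0.le
  rcases le_or_gt (2 * w) (N + 1) with h | h
  · exact Or.inl (main w h2 h H)
  · right
    have h3 := main (N + 1 - w) (by omega) (by omega) (by
      intro v hv0 hv1
      have h4 := H v hv0 hv1
      have h5 := Int.emod_lt_of_pos (v * w) (show 0 < N by omega)
      have h6 : (v * (N + 1 - w)) % N = N + v - (v * w) % N := by
        obtain ⟨c, hc⟩ : N ∣ v * w - (v * w) % N := Int.dvd_self_sub_emod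
        have : v * (N + 1 - w) = (N + v - (v * w) % N) + N * (v - 1 - c) := by
          linear_combination -hc
        rw [this, Int.add_mul_emod_self_left]
        exact Int.emod_eq_of_lt (by omega) (by omega)
      rw [h6]
      omega)
    omega

end Pool.Agent.R340.P3
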