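import Pool.Agent.R340.P3.LineR

set_option autoImplicit false

/-!
The inequalities for line subbundles in terms of the numerators of the exponents.
-/

open Finset

namespace Pool.Agent.R340.P3

open Pool.Agent.Y227.SS

/-- The inequalities for line subbundles, for all multiples of the exponents `e i l / N`. -/
def SG (N : ℕ) (e : Fin 3 → Fin 3 → ℤ) : Prop :=
  ∀ u : ℤ, IsCoprime u (N : ℤ) → ∀ V : Fin 3 → ℤ,
    3 * ∑ i, V i + ∑ i, ∑ l, (u * e i l - V i) % N < 3 * N → ∑ i, V i < 0

lemma ceil_div {N : ℕ} (hN : 0 < N) (z c : ℤ) (h : N * c = z + (-z) % N) :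
    ⌈(z : ℝ) / N⌉ = c := by
  have hN' : (0 : ℝ) < N := by exact_mod_cast hN
  have hNz : (0 : ℤ) < N := by exact_mod_cast hN
  have h0 := Int.emod_nonneg (-z) hNz.ne'
  have h1 := Int.emod_lt_of_pos (-z) hNz
  rw [Int.ceil_eq_iff]
  constructor
  · rw [lt_div_iff₀ hN']
    have : (c - 1) * N < z := by linarith
    exact_mod_cast this
  · rw [div_le_iff₀ hN']
    have : z ≤ c * N := by linarith
    exact_mod_cast this

lemma exists_quot {N : ℕ} (z : ℤ) : ∃ c : ℤ, (N : ℤ) * c = z + (-z) % N := by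
  obtain ⟨k, hk⟩ : (N : ℤ) ∣ -z - (-z) % N := Int.dvd_self_sub_emod
  exact ⟨-k, by linear_combination hk⟩

/-- The inequalities for all the points. -/
theorem sg_all {m n N : ℕ} (hn : 2 ≤ n) (hN : 0 < N) (E : Option (Fin m) → Fin n → ℤ) (F : ℤ)
    (hF : ∑ x, ∑ l, E x l = N * F) (u : ℤ)
    (hst : StableWeights ℂ (fun j l => (u : ℝ) * ((E (some j) l : ℝ) / N))
      (fun l => (u : ℝ) * (-(E none l : ℝ) / N))) (V : Option (Fin m) → ℤ)
    (hV : n * ∑ x, V x + ∑ x, ∑ l, (u * E x l - V x) % N < n * N) : ∑ x, V x < 0 := by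
  have hN' : (0 : ℝ) < N := by exact_mod_cast hN
  have hNz : (0 : ℤ) < N := by exact_mod_cast hN
  have hq : ∀ x l, ∃ c : ℤ, (N : ℤ) * c = (V x - u * E x l) + (u * E x l - V x) % N := by
    intro x l
    obtain ⟨c, hc⟩ := exists_quot (N := N) (V x - u * E x l)
    rw [neg_sub] at hc
    exact ⟨c, hc⟩
  choose c hc using hq
  have hceil : ∀ x l, ⌈((V x - u * E x l : ℤ) : ℝ) / N⌉ = c x l := fun x l =>
    ceil_div hN _ _ (by rw [neg_sub]; exact hc x l)
  have h1 : ∀ j l, ⌈(V (some j) : ℝ) / N - (u : ℝ) * ((E (some j) l : ℝ) / N)⌉ = c (some j) l := by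
    intro j l
    rw [← hceil (some j) l]
    congr 1
    push_cast
    field_simp
  have h2 : ∀ l, ⌊-(V none : ℝ) / N - (u : ℝ) * (-(E none l : ℝ) / N)⌋ = -c none l := by
    intro l
    rw [← hceil none l, ← Int.floor_neg]
    congr 1
    push_cast
    field_simp
    ring
  have hsum : ∑ x, ∑ l, (N * c x l) = n * ∑ x, V x - u * (N * F) + ∑ x, ∑ l, (u * E x l - V x) % N := by
    simp only [hc, sum_add_distrib, sum_sub_distrib, sum_const, card_univ, Fintype.card_fin,
      nsmul_eq_mul, ← mul_sum, hF]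
  have hlt : ∑ x, ∑ l, c x l + u * F < n := by
    have h3 : (N : ℤ) * (∑ x, ∑ l, c x l + u * F) < N * n := by
      rw [mul_add, mul_sum]
      have : ∀ x ∈ (univ : Finset (Option (Fin m))), (N : ℤ) * ∑ l, c x l = ∑ l, (N * c x l) :=
        fun x _ => mul_sum _ _ _
      rw [sum_congr rfl this, hsum]
      linarith
    exact lt_of_mul_lt_mul_left h3 hNz.le
  have hfin := line_ineq hn hst (fun j => (V (some j) : ℝ) / N) (-(V none : ℝ) / N) (u * F)
    (by
      have h3 : ((∑ x, ∑ l, E x l : ℤ) : ℝ) = ((N * F : ℤ) : ℝ) := by rw [hF]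
      rw [Fintype.sum_option] at h3
      push_cast at h3 ⊢
      simp only [← mul_sum, ← sum_div]
      rw [sum_neg_distrib]
      field_simp
      linear_combination u * h3) (by
      rw [Fintype.sum_option] at hlt
      have e1 : ∑ j, ∑ l, ⌈(V (some j) : ℝ) / N - (u : ℝ) * ((E (some j) l : ℝ) / N)⌉ =
          ∑ j, ∑ l, c (some j) l :=
        sum_congr rfl fun j _ => sum_congr rfl fun l _ => h1 j l
      have e2 : ∑ l : Fin n, (⌊-(V none : ℝ) / N - (u : ℝ) * (-(E none l : ℝ) / N)⌋ + 1) =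
          n - ∑ l, c none l := by
        rw [sum_congr rfl fun l _ => by rw [h2 l]]
        rw [sum_add_distrib, sum_neg_distrib, sum_const, card_univ, Fintype.card_fin, nsmul_eq_mul,
          mul_one]
        ring
      rw [e1, e2]
      linarith)
  rw [← sum_div, div_lt_div_iff_of_pos_right hN'] at hfin
  have h3 : ((∑ j, V (some j) : ℤ) : ℝ) < ((-V none : ℤ) : ℝ) := by
    push_cast
    exact hfin
  have h4 : ∑ j, V (some j) < -V none := by exact_mod_cast h3
  rw [Fintype.sum_option]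
  linarith

/-- The inequalities for three points, the exponents at the other points being integers. -/
theorem sg_three {m N : ℕ} (hN : 0 < N) (E : Option (Fin m) → Fin 3 → ℤ) (F : ℤ)
    (hF : ∑ x, ∑ l, E x l = N * F) (P : Fin 3 ↪ Option (Fin m))
    (hint : ∀ x, x ∉ Set.range P → ∀ l, (N : ℤ) ∣ E x l)
    (hst : ∀ u : ℤ, IsCoprime u (N : ℤ) →
      StableWeights ℂ (fun j l => (u : ℝ) * ((E (some j) l : ℝ) / N))
        (fun l => (u : ℝ) * (-(E none l : ℝ) / N))) : SG N (fun i => E (P i)) := by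
  classical
  intro u hu V hV
  let V' : Option (Fin m) → ℤ := Function.extend P V 0
  have hV1 : ∀ i, V' (P i) = V i := fun i => P.injective.extend_apply _ _ i
  have hV2 : ∀ x, x ∉ Set.range P → V' x = 0 := by
    intro x hx
    have : ¬ ∃ a, P a = x := hx
    exact Function.extend_apply' _ _ x this
  have hsplit : ∀ f : Option (Fin m) → ℤ, (∀ x, x ∉ Set.range P → f x = 0) →
      ∑ x, f x = ∑ i, f (P i) := by
    intro f hf
    rw [← Finset.sum_add_sum_compl (univ.map P) f, Finset.sum_map, add_eq_left]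
    refine sum_eq_zero fun x hx => hf x fun ⟨i, hi⟩ => ?_
    rw [Finset.mem_compl] at hx
    exact hx (Finset.mem_map.2 ⟨i, mem_univ _, hi⟩)
  have e1 : ∑ x, V' x = ∑ i, V i := by
    rw [hsplit V' hV2]
    exact sum_congr rfl fun i _ => hV1 i
  have e2 : ∑ x, ∑ l, (u * E x l - V' x) % N = ∑ i, ∑ l, (u * E (P i) l - V i) % N := by
    rw [hsplit (fun x => ∑ l, (u * E x l - V' x) % N)]
    · exact sum_congr rfl fun i _ => by simp only [hV1]
    · intro x hx
      refine sum_eq_zero fun l _ => ?_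
      rw [hV2 x hx, sub_zero]
      exact Int.emod_eq_zero_of_dvd ((hint x hx l).mul_left u)
  have := sg_all (by norm_num) hN E F hF u (hst u hu) V' (by
    rw [e1, e2]
    push_cast
    exact hV)
  rwa [e1] at this

end Pool.Agent.R340.P3
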